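import Pool.Agent.Helper46.Grid.Defs2

namespace RandomGrid

open VassBraid Finset Function

variable {n : ℕ}

/-- number of consecutive visits in the same block -/
def adj (c : Equiv.Perm (Fin (n + 1))) : ℕ :=
  (univ.filter fun k : Fin (n + 1) => (c k : ℕ) / 4 = (c (k + 1) : ℕ) / 4).card

/-- a block contains at most three elements besides a given one -/
theorem adj_block_le (c : Equiv.Perm (Fin (n + 1))) (k : Fin (n + 1)) :
    ((univ.erase k).filter fun j : Fin (n + 1) => (c k : ℕ) / 4 = (c j : ℕ) / 4).card ≤ 3 := by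
  have h1 : (univ.filter fun j : Fin (n + 1) => (c k : ℕ) / 4 = (c j : ℕ) / 4).card ≤ 4 := by
    have h := Finset.card_le_card_of_injOn (s := univ.filter fun j : Fin (n + 1) =>
        (c k : ℕ) / 4 = (c j : ℕ) / 4)
      (t := Finset.Ico (4 * ((c k : ℕ) / 4)) (4 * ((c k : ℕ) / 4) + 4))
      (fun j => (c j : ℕ)) ?_ ?_
    · simpa using h
    · intro j hj
      have hj : (c k : ℕ) / 4 = (c j : ℕ) / 4 := (Finset.mem_filter.1 hj).2
      simp only [Finset.coe_Ico, Set.mem_Ico]
      omega
    · intro a _ b _ hab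
      exact c.injective (Fin.ext hab)
  have h2 : ((univ.erase k).filter fun j : Fin (n + 1) => (c k : ℕ) / 4 = (c j : ℕ) / 4) =
      (univ.filter fun j : Fin (n + 1) => (c k : ℕ) / 4 = (c j : ℕ) / 4).erase k := by
    ext j
    simp only [Finset.mem_filter, Finset.mem_erase, Finset.mem_univ, true_and, and_true]
  rw [h2, Finset.card_erase_of_mem (by simp)]
  omega

/-- the number of permutations which put `k` and `j` in the same block does not depend on `j` -/
theorem adj_swap (k j l : Fin (n + 1)) (hj : j ≠ k) (hl : l ≠ k) :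
    (univ.filter fun c : Equiv.Perm (Fin (n + 1)) => (c k : ℕ) / 4 = (c j : ℕ) / 4).card =
    (univ.filter fun c : Equiv.Perm (Fin (n + 1)) => (c k : ℕ) / 4 = (c l : ℕ) / 4).card := by
  refine Finset.card_bij (fun c _ => c * Equiv.swap j l) ?_ ?_ ?_
  · intro c hc
    simp only [Finset.mem_filter, Finset.mem_univ, true_and, Equiv.Perm.mul_apply,
      Equiv.swap_apply_right] at hc ⊢
    rw [Equiv.swap_apply_of_ne_of_ne hj.symm hl.symm]
    exact hc
  · intro a _ b _ hab
    exact mul_right_cancel hab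
  · intro c hc
    refine ⟨c * Equiv.swap j l, ?_, ?_⟩
    · simp only [Finset.mem_filter, Finset.mem_univ, true_and, Equiv.Perm.mul_apply,
        Equiv.swap_apply_left] at hc ⊢
      rw [Equiv.swap_apply_of_ne_of_ne hj.symm hl.symm]
      exact hc
    · rw [mul_assoc, Equiv.swap_mul_self, mul_one]

theorem adj_pair (k l : Fin (n + 1)) (hl : l ≠ k) :
    n * (univ.filter fun c : Equiv.Perm (Fin (n + 1)) => (c k : ℕ) / 4 = (c l : ℕ) / 4).card ≤
      3 * (n + 1).factorial := by
  have h1 : ∑ j ∈ univ.erase k, (univ.filter fun c : Equiv.Perm (Fin (n + 1)) =>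
      (c k : ℕ) / 4 = (c j : ℕ) / 4).card = n * (univ.filter fun c : Equiv.Perm (Fin (n + 1)) =>
      (c k : ℕ) / 4 = (c l : ℕ) / 4).card := by
    rw [Finset.sum_congr rfl fun j hj => adj_swap k j l (Finset.ne_of_mem_erase hj) hl,
      Finset.sum_const, Finset.card_erase_of_mem (Finset.mem_univ k), Finset.card_univ,
      Fintype.card_fin, smul_eq_mul, Nat.add_sub_cancel]
  have h2 : ∑ j ∈ univ.erase k, (univ.filter fun c : Equiv.Perm (Fin (n + 1)) =>
      (c k : ℕ) / 4 = (c j : ℕ) / 4).card =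
      ∑ c : Equiv.Perm (Fin (n + 1)),
        ((univ.erase k).filter fun j : Fin (n + 1) => (c k : ℕ) / 4 = (c j : ℕ) / 4).card := by
    simp only [Finset.card_filter]
    exact Finset.sum_comm
  rw [← h1, h2]
  calc ∑ c : Equiv.Perm (Fin (n + 1)),
        ((univ.erase k).filter fun j : Fin (n + 1) => (c k : ℕ) / 4 = (c j : ℕ) / 4).card
      ≤ ∑ _c : Equiv.Perm (Fin (n + 1)), 3 := Finset.sum_le_sum fun c _ => adj_block_le c k
    _ = 3 * (n + 1).factorial := by
        rw [Finset.sum_const, Finset.card_univ, Fintype.card_perm, Fintype.card_fin, smul_eq_mul,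
          mul_comm]

theorem adj_sum (hn : 1 ≤ n) :
    ∑ c : Equiv.Perm (Fin (n + 1)), adj c ≤ 6 * (n + 1).factorial := by
  have h1 : ∑ c : Equiv.Perm (Fin (n + 1)), adj c = ∑ k : Fin (n + 1),
      (univ.filter fun c : Equiv.Perm (Fin (n + 1)) =>
        (c k : ℕ) / 4 = (c (k + 1) : ℕ) / 4).card := by
    simp only [adj, Finset.card_filter]
    exact Finset.sum_comm
  have hne : ∀ k : Fin (n + 1), k + 1 ≠ k := by
    intro k hk
    have h0 : (1 : Fin (n + 1)) = 0 := by simpa using hk
    rw [Fin.one_eq_zero_iff] at h0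
    omega
  have h2 : n * ∑ c : Equiv.Perm (Fin (n + 1)), adj c ≤ (n + 1) * (3 * (n + 1).factorial) := by
    rw [h1, Finset.mul_sum]
    calc ∑ k : Fin (n + 1), n * (univ.filter fun c : Equiv.Perm (Fin (n + 1)) =>
        (c k : ℕ) / 4 = (c (k + 1) : ℕ) / 4).card
        ≤ ∑ _k : Fin (n + 1), 3 * (n + 1).factorial :=
          Finset.sum_le_sum fun k _ => adj_pair k (k + 1) (hne k)
      _ = (n + 1) * (3 * (n + 1).factorial) := by
          rw [Finset.sum_const, Finset.card_univ, Fintype.card_fin, smul_eq_mul]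
  have h3 : n * ∑ c : Equiv.Perm (Fin (n + 1)), adj c ≤ n * (6 * (n + 1).factorial) := by
    refine h2.trans ?_
    have : (n + 1) * (3 * (n + 1).factorial) ≤ (2 * n) * (3 * (n + 1).factorial) :=
      Nat.mul_le_mul_right _ (by omega)
    refine this.trans (le_of_eq (by ring))
  exact Nat.le_of_mul_le_mul_left h3 (by omega)

end RandomGrid
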