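import Pool.Agent.Helper46.Grid.Cube

namespace RandomGrid

open VassBraid Finset Function

variable {n : ℕ}

private theorem tw_tw (n : ℕ) (s : Finset ℕ) (c : Equiv.Perm (Fin (n + 1))) :
    tw n s * (tw n s * c) = c := by
  rw [← mul_assoc]
  have : tw n s * tw n s = 1 := by
    ext x
    simp only [Equiv.Perm.coe_mul, Function.comp, Equiv.Perm.coe_one, id]
    rw [show tw n s (tw n s x) = twFn n s (twFn n s x) from rfl, twFn_invol n s x]
  rw [this, one_mul]

private theorem goods_tw (c r : Equiv.Perm (Fin (n + 1))) (s : Finset ℕ) :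
    goods (tw n s * c) r = goods c r := by
  classical
  unfold goods
  apply filter_congr
  intro i hi
  exact good_tw c r s i (mem_range.mp hi)

private theorem card_pairsOf (G : Finset ℕ) : (pairsOf G).card = 2 * G.card := by
  unfold pairsOf
  rw [card_biUnion]
  · rw [sum_congr rfl (g := fun _ => 2)]
    · rw [sum_const, smul_eq_mul, mul_comm]
    · intro i _
      exact card_pair (by omega)
  · intro i _ j _ hij
    rw [Function.onFun, disjoint_left]
    intro z hz hz'
    simp only [mem_insert, mem_singleton] at hz hz'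
    omega

open Classical in
private theorem fiber_bound (hn : 1 ≤ n) (a : ℚ) (r : Equiv.Perm (Fin (n + 1))) (G : Finset ℕ)
    (hG : 0 < G.card) :
    (((univ.filter fun c : Equiv.Perm (Fin (n + 1)) => goods c r = G).filter
      fun c => f2 (gridKnot c r) = a).card : ℝ) ≤ 5 / 2 / (G.card : ℝ) ^ (1 / 8 : ℝ) *
      ((univ.filter fun c : Equiv.Perm (Fin (n + 1)) => goods c r = G).card : ℝ) := by
  set C := univ.filter fun c : Equiv.Perm (Fin (n + 1)) => goods c r = G with hC
  have memC : ∀ c, c ∈ C ↔ goods c r = G := by intro c; rw [hC]; simp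
  have inv : ∀ s : Finset ℕ, (C.filter fun c => f2 (gridKnot (tw n s * c) r) = a).card =
      (C.filter fun c => f2 (gridKnot c r) = a).card := by
    intro s
    apply card_nbij' (fun c => tw n s * c) (fun c => tw n s * c)
    · intro c hc
      rw [mem_coe, mem_filter, memC] at hc ⊢
      rw [goods_tw]
      exact hc
    · intro c hc
      rw [mem_coe, mem_filter, memC] at hc ⊢
      rw [goods_tw, tw_tw]
      exact hc
    · intro c _; exact tw_tw n s c
    · intro c _; exact tw_tw n s c
  have hsum : (2 : ℝ) ^ (2 * G.card) * ((C.filter fun c => f2 (gridKnot c r) = a).card : ℝ) =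
      ∑ c ∈ C, (((pairsOf G).powerset.filter fun s => f2 (gridKnot (tw n s * c) r) = a).card : ℝ) := by
    have h1 : ∑ s ∈ (pairsOf G).powerset,
        ((C.filter fun c => f2 (gridKnot (tw n s * c) r) = a).card : ℝ) =
        (2 : ℝ) ^ (2 * G.card) * ((C.filter fun c => f2 (gridKnot c r) = a).card : ℝ) := by
      rw [sum_congr rfl (g := fun _ => ((C.filter fun c => f2 (gridKnot c r) = a).card : ℝ))
        (fun s _ => by rw [inv s])]
      rw [sum_const, card_powerset, card_pairsOf, nsmul_eq_mul]
      push_cast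
      rfl
    rw [← h1]
    simp only [card_filter, Nat.cast_sum]
    rw [sum_comm]
  have hle : ∑ c ∈ C, (((pairsOf G).powerset.filter
      fun s => f2 (gridKnot (tw n s * c) r) = a).card : ℝ) ≤
      ∑ c ∈ C, 5 / 2 / (G.card : ℝ) ^ (1 / 8 : ℝ) * 2 ^ (2 * G.card) := by
    apply sum_le_sum
    intro c hc
    rw [memC] at hc
    have := cube_good hn c r (by rw [hc]; exact hG) a
    rw [hc] at this
    exact this
  rw [← hsum, sum_const, nsmul_eq_mul] at hle
  have h2 : (0 : ℝ) < 2 ^ (2 * G.card) := by positivity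
  have h3 : (2 : ℝ) ^ (2 * G.card) * ((C.filter fun c => f2 (gridKnot c r) = a).card : ℝ) ≤
      2 ^ (2 * G.card) * (5 / 2 / (G.card : ℝ) ^ (1 / 8 : ℝ) * (C.card : ℝ)) := by
    refine hle.trans (le_of_eq ?_)
    ring
  exact le_of_mul_le_mul_left h3 h2

open Classical in
private theorem row_bound (hn : 1 ≤ n) (R : ℝ) (hR : 0 < R) (a : ℚ)
    (r : Equiv.Perm (Fin (n + 1))) :
    ((univ.filter fun c : Equiv.Perm (Fin (n + 1)) =>
        R ≤ ((goods c r).card : ℝ) ∧ f2 (gridKnot c r) = a).card : ℝ)
      ≤ 5 / 2 / R ^ (1 / 8 : ℝ) * ((n + 1).factorial : ℝ) := by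
  set T := univ.filter fun c : Equiv.Perm (Fin (n + 1)) =>
        R ≤ ((goods c r).card : ℝ) ∧ f2 (gridKnot c r) = a with hT
  set I := univ.image (fun c : Equiv.Perm (Fin (n + 1)) => goods c r) with hI
  have h1 : T.card = ∑ G ∈ I, (T.filter fun c => goods c r = G).card :=
    card_eq_sum_card_fiberwise (fun c _ => mem_image_of_mem _ (mem_univ c))
  have h2 : (univ : Finset (Equiv.Perm (Fin (n + 1)))).card =
      ∑ G ∈ I, (univ.filter fun c : Equiv.Perm (Fin (n + 1)) => goods c r = G).card :=
    card_eq_sum_card_fiberwise (fun c _ => mem_image_of_mem _ (mem_univ c))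
  have h3 : (univ : Finset (Equiv.Perm (Fin (n + 1)))).card = (n + 1).factorial := by
    rw [card_univ, Fintype.card_perm, Fintype.card_fin]
  rw [← h3, h2, h1]
  push_cast
  rw [mul_sum]
  apply sum_le_sum
  intro G _
  by_cases hG : R ≤ (G.card : ℝ)
  · have hg : (0 : ℝ) < G.card := hR.trans_le hG
    have hg' : 0 < G.card := by exact_mod_cast hg
    have e : (T.filter fun c => goods c r = G) =
        (univ.filter fun c : Equiv.Perm (Fin (n + 1)) => goods c r = G).filter
          fun c => f2 (gridKnot c r) = a := by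
      ext c
      rw [hT]
      simp only [mem_filter, mem_univ, true_and]
      constructor
      · rintro ⟨⟨_, h⟩, h'⟩; exact ⟨h', h⟩
      · rintro ⟨h', h⟩; exact ⟨⟨by rw [h']; exact hG, h⟩, h'⟩
    rw [e]
    refine (fiber_bound hn a r G hg').trans ?_
    apply mul_le_mul_of_nonneg_right _ (Nat.cast_nonneg _)
    apply div_le_div_of_nonneg_left (by norm_num) (by positivity)
    exact Real.rpow_le_rpow hR.le hG (by norm_num)
  · have e : (T.filter fun c => goods c r = G) = ∅ := by
      rw [filter_eq_empty_iff]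
      intro c hc h
      rw [hT, mem_filter] at hc
      rw [h] at hc
      exact hG hc.2.1
    rw [e, card_empty, Nat.cast_zero]
    positivity

open Classical in
/-- among the grids with many good blocks only few have `f2 = a` -/
theorem avg_bound (hn : 1 ≤ n) (R : ℝ) (hR : 0 < R) (a : ℚ) :
    ((univ.filter fun x : Equiv.Perm (Fin (n + 1)) × Equiv.Perm (Fin (n + 1)) =>
        R ≤ ((goods x.1 x.2).card : ℝ) ∧ f2 (gridKnot x.1 x.2) = a).card : ℝ)
      ≤ 5 / 2 / R ^ (1 / 8 : ℝ) * ((n + 1).factorial : ℝ) ^ 2 := by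
  have h1 : (univ.filter fun x : Equiv.Perm (Fin (n + 1)) × Equiv.Perm (Fin (n + 1)) =>
        R ≤ ((goods x.1 x.2).card : ℝ) ∧ f2 (gridKnot x.1 x.2) = a).card =
      ∑ r : Equiv.Perm (Fin (n + 1)), (univ.filter fun c : Equiv.Perm (Fin (n + 1)) =>
        R ≤ ((goods c r).card : ℝ) ∧ f2 (gridKnot c r) = a).card := by
    simp only [card_filter]
    rw [← univ_product_univ, sum_product_right]
  rw [h1]
  push_cast
  refine (sum_le_sum fun r _ => row_bound hn R hR a r).trans ?_
  rw [sum_const, card_univ, Fintype.card_perm, Fintype.card_fin, nsmul_eq_mul]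
  apply le_of_eq
  ring

end RandomGrid
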