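import Pool.Agent.Helper46.Grid.Adj

/-!
# Choice of blocks without neighbours
-/

namespace RandomGrid

open VassBraid Finset Function

variable {n : ℕ}

theorem indep_subset {ι : Type*} [DecidableEq ι] (V : Finset ι) (R : ι → ι → Prop)
    [DecidableRel R] (hsymm : ∀ i j, R i j → R j i) (d : ℕ)
    (hdeg : ∀ i ∈ V, (V.filter fun j => R i j).card ≤ d) :
    ∃ F ⊆ V, (∀ i ∈ F, ∀ j ∈ F, i ≠ j → ¬ R i j) ∧ V.card ≤ (d + 1) * F.card := by
  induction h : V.card using Nat.strong_induction_on generalizing V with
  | _ N ih =>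
    rcases V.eq_empty_or_nonempty with rfl | ⟨v, hv⟩
    · refine ⟨∅, subset_rfl, by simp, ?_⟩
      rw [← h]
      simp
    · set W := V.filter fun j => j ≠ v ∧ ¬ R v j with hW
      have hWV : W ⊆ V := filter_subset _ _
      have hcard : V.card ≤ W.card + (d + 1) := by
        have h1 : V ⊆ W ∪ insert v (V.filter fun j => R v j) := by
          intro j hj
          by_cases h2 : j = v
          · subst h2
            exact mem_union_right _ (mem_insert_self _ _)
          by_cases h3 : R v j
          · exact mem_union_right _ (mem_insert_of_mem (mem_filter.2 ⟨hj, h3⟩))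
          · exact mem_union_left _ (mem_filter.2 ⟨hj, h2, h3⟩)
        calc V.card ≤ (W ∪ insert v (V.filter fun j => R v j)).card := card_le_card h1
          _ ≤ W.card + (insert v (V.filter fun j => R v j)).card := card_union_le _ _
          _ ≤ W.card + ((V.filter fun j => R v j).card + 1) := by
              gcongr
              exact card_insert_le _ _
          _ ≤ W.card + (d + 1) := by
              gcongr
              exact hdeg v hv
      have hlt : W.card < N := by
        rw [← h]
        apply card_lt_card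
        refine ⟨hWV, fun hcon => ?_⟩
        exact (mem_filter.1 (hcon hv)).2.1 rfl
      obtain ⟨F, hF1, hF2, hF3⟩ := ih W.card hlt W (fun i hi =>
        (card_le_card (filter_subset_filter _ hWV)).trans (hdeg i (hWV hi))) rfl
      have hvF : v ∉ F := fun hcon => (mem_filter.1 (hF1 hcon)).2.1 rfl
      refine ⟨insert v F, insert_subset hv (hF1.trans hWV), ?_, ?_⟩
      · intro i hi j hj hij
        rcases mem_insert.1 hi with hi1 | hi1
        · rcases mem_insert.1 hj with hj1 | hj1
          · exact absurd (hi1.trans hj1.symm) hij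
          · rw [hi1]
            exact (mem_filter.1 (hF1 hj1)).2.2
        · rcases mem_insert.1 hj with hj1 | hj1
          · rw [hj1]
            exact fun hR => (mem_filter.1 (hF1 hi1)).2.2 (hsymm _ _ hR)
          · exact hF2 i hi1 j hj1 hij
      · rw [card_insert_of_notMem hvF, ← h]
        nlinarith

/-- the eight positions of a block: the times before and at the visits of its columns -/
def pos (c : Equiv.Perm (Fin (n + 1))) (i t : ℕ) : Fin (n + 1) :=
  if t % 2 = 0 then c.symm (col n (4 * i + t / 2)) - 1 else c.symm (col n (4 * i + t / 2))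

private lemma blocks_card_block (f : Fin (n + 1) → Fin (n + 1)) (hf : Injective f) (i : ℕ) :
    (univ.filter fun k => (f k : ℕ) / 4 = i).card ≤ 4 := by
  calc (univ.filter fun k => (f k : ℕ) / 4 = i).card
      ≤ (Finset.Ico (4 * i) (4 * i + 4)).card := by
        refine card_le_card_of_injOn (fun k => (f k : ℕ)) ?_ ?_
        · intro k hk
          have := (mem_filter.1 hk).2
          simp only [coe_Ico, Set.mem_Ico]
          omega
        · intro a _ b _ hab
          exact hf (Fin.ext hab)
    _ = 4 := by simp

private lemma blocks_col_val {j : ℕ} (hj : j < n + 1) : (col n j : ℕ) = j := by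
  simp only [col, Fin.ofNat]
  exact Nat.mod_eq_of_lt hj

theorem choose_blocks (hn : 1 ≤ n) (c : Equiv.Perm (Fin (n + 1))) (V : Finset ℕ)
    (hV : ∀ i ∈ V, i < (n + 1) / 4) :
    ∃ F ⊆ V, V.card ≤ 9 * F.card + adj c ∧
      ∀ i ∈ F, ∀ i' ∈ F, ∀ t < 8, ∀ t' < 8, pos c i t = pos c i' t' → i = i' ∧ t = t' := by
  classical
  set I : ℕ → Prop := fun i => ∃ k : Fin (n + 1), (c k : ℕ) / 4 = i ∧ (c (k + 1) : ℕ) / 4 = i
    with hI
  set V0 := V.filter fun i => ¬ I i with hV0
  set R : ℕ → ℕ → Prop := fun i j => ∃ k : Fin (n + 1),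
    ((c k : ℕ) / 4 = i ∧ (c (k + 1) : ℕ) / 4 = j) ∨ ((c k : ℕ) / 4 = j ∧ (c (k + 1) : ℕ) / 4 = i)
    with hR
  have h1 : V.card ≤ V0.card + adj c := by
    have h2 : (V.filter fun i => I i).card ≤ adj c := by
      unfold adj
      refine card_le_card_of_surjOn (fun k => (c k : ℕ) / 4) ?_
      intro i hi
      obtain ⟨_, k, hk1, hk2⟩ := mem_filter.1 hi
      exact ⟨k, by simp [hk1, hk2], hk1⟩
    have h3 : (V.filter fun i => I i).card + V0.card = V.card :=
      card_filter_add_card_filter_not (s := V) (fun i => I i)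
    omega
  obtain ⟨F, hF1, hF2, hF3⟩ := indep_subset V0 R (fun i j ⟨k, hk⟩ => ⟨k, hk.symm⟩) 8 (by
    intro i _
    have hsub : (V0.filter fun j => R i j) ⊆
        ((univ.filter fun k : Fin (n + 1) => (c k : ℕ) / 4 = i).image
          fun k => (c (k + 1) : ℕ) / 4) ∪
        ((univ.filter fun k : Fin (n + 1) => (c (k + 1) : ℕ) / 4 = i).image
          fun k => (c k : ℕ) / 4) := by
      intro j hj
      obtain ⟨_, k, hk | hk⟩ := mem_filter.1 hj
      · exact mem_union_left _ (mem_image.2 ⟨k, by simp [hk.1], hk.2⟩)
      · exact mem_union_right _ (mem_image.2 ⟨k, by simp [hk.2], hk.1⟩)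
    refine (card_le_card hsub).trans ((card_union_le _ _).trans ?_)
    have ha := blocks_card_block (fun k => c k) c.injective i
    have hb := blocks_card_block (fun k => c (k + 1)) (fun a b hab => by
      simpa using c.injective hab) i
    exact (Nat.add_le_add (card_image_le.trans ha) (card_image_le.trans hb)).trans (by norm_num))
  refine ⟨F, hF1.trans (filter_subset _ _), by omega, ?_⟩
  have key : ∀ i ∈ F, ∀ i' ∈ F, ∀ s < 4, ∀ s' < 4,
      c.symm (col n (4 * i + s)) - 1 = c.symm (col n (4 * i' + s')) → False := by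
    intro i hi i' hi' s hs s' hs' heq
    have hiV := mem_filter.1 (hF1 hi)
    have hiV' := mem_filter.1 (hF1 hi')
    have hlt := hV i hiV.1
    have hlt' := hV i' hiV'.1
    set k := c.symm (col n (4 * i' + s')) with hk
    have hk1 : c k = col n (4 * i' + s') := by simp [hk]
    have hk2 : c (k + 1) = col n (4 * i + s) := by
      have : k + 1 = c.symm (col n (4 * i + s)) := (sub_eq_iff_eq_add.1 heq).symm
      rw [this]
      simp
    have hv1 : (c k : ℕ) / 4 = i' := by
      rw [hk1, blocks_col_val (by omega)]
      omega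
    have hv2 : (c (k + 1) : ℕ) / 4 = i := by
      rw [hk2, blocks_col_val (by omega)]
      omega
    by_cases hii : i = i'
    · subst hii
      exact hiV.2 ⟨k, hv1, hv2⟩
    · exact hF2 i hi i' hi' hii ⟨k, Or.inr ⟨hv1, hv2⟩⟩
  have key2 : ∀ i ∈ F, ∀ i' ∈ F, ∀ s < 4, ∀ s' < 4,
      c.symm (col n (4 * i + s)) = c.symm (col n (4 * i' + s')) → i = i' ∧ s = s' := by
    intro i hi i' hi' s hs s' hs' heq
    have hlt := hV i (mem_filter.1 (hF1 hi)).1
    have hlt' := hV i' (mem_filter.1 (hF1 hi')).1
    have h2 := congrArg Fin.val (c.symm.injective heq)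
    rw [blocks_col_val (by omega), blocks_col_val (by omega)] at h2
    omega
  intro i hi i' hi' t ht t' ht' heq
  unfold pos at heq
  split_ifs at heq with h2 h3 h3
  · have := key2 i hi i' hi' (t / 2) (by omega) (t' / 2) (by omega) (sub_left_injective heq)
    omega
  · exact (key i hi i' hi' (t / 2) (by omega) (t' / 2) (by omega) heq).elim
  · exact (key i' hi' i hi (t' / 2) (by omega) (t / 2) (by omega) heq.symm).elim
  · have := key2 i hi i' hi' (t / 2) (by omega) (t' / 2) (by omega) heq
    omega

end RandomGrid
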