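import Pool.Agent.Helper46.Grid.Defs2

namespace RandomGrid

open VassBraid Finset Function

variable {m : ℕ}


theorem BEq.refl (w : Word m) : BEq w w := fun _ _ => Relation.EqvGen.refl _
theorem BEq.symm {w w' : Word m} (h : BEq w w') : BEq w' w :=
  fun u v => Relation.EqvGen.symm _ _ (h u v)
theorem BEq.trans {w w' w'' : Word m} (h : BEq w w') (h' : BEq w' w'') : BEq w w'' :=
  fun u v => Relation.EqvGen.trans _ _ _ (h u v) (h' u v)
theorem BEq.append {w w' v v' : Word m} (h : BEq w w') (h' : BEq v v') :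
    BEq (w ++ v) (w' ++ v') := by
  intro a b
  have h1 := h a (v ++ b)
  have h2 := h' (a ++ w') b
  have e1 : a ++ w ++ (v ++ b) = a ++ (w ++ v) ++ b := by simp
  have e2 : a ++ w' ++ (v ++ b) = a ++ w' ++ v ++ b := by simp
  have e3 : a ++ w' ++ v' ++ b = a ++ (w' ++ v') ++ b := by simp
  rw [e1, e2] at h1
  rw [e3] at h2
  exact Relation.EqvGen.trans _ _ _ h1 h2
theorem BEq.markov {w w' : Word m} (h : BEq w w') : MarkovEq ⟨m, w⟩ ⟨m, w'⟩ := by
  have := h [] []
  simpa using this

/-- equality of words in natural numbers -/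
def BNEq (m : ℕ) (w w' : List (ℕ × Bool)) : Prop := BEq (toWord m w) (toWord m w')

theorem bn_toWord_append (w v : List (ℕ × Bool)) :
    toWord m (w ++ v) = toWord m w ++ toWord m v := by
  simp [toWord]

theorem BNEq.refl (w : List (ℕ × Bool)) : BNEq m w w := BEq.refl _
theorem BNEq.symm {w w' : List (ℕ × Bool)} (h : BNEq m w w') : BNEq m w' w := BEq.symm h
theorem BNEq.trans {w w' w'' : List (ℕ × Bool)} (h : BNEq m w w') (h' : BNEq m w' w'') :
    BNEq m w w'' := BEq.trans h h'
theorem BNEq.append {w w' v v' : List (ℕ × Bool)} (h : BNEq m w w') (h' : BNEq m v v') :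
    BNEq m (w ++ v) (w' ++ v') := by
  unfold BNEq at *
  rw [bn_toWord_append, bn_toWord_append]
  exact BEq.append h h'

instance : Trans (BNEq m) (BNEq m) (BNEq m) := ⟨BNEq.trans⟩

/-- replace the middle part -/
theorem BNEq.mid {w w' : List (ℕ × Bool)} (h : BNEq m w w') (u v : List (ℕ × Bool)) :
    BNEq m (u ++ w ++ v) (u ++ w' ++ v) :=
  BNEq.append (BNEq.append (BNEq.refl u) h) (BNEq.refl v)

theorem bn_cancel (i : ℕ) (b : Bool) : BNEq m [(i, b), (i, !b)] [] := by
  unfold BNEq
  by_cases hi : i < m
  · intro u v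
    have e : toWord m [(i, b), (i, !b)] = [(⟨i, hi⟩, b), (⟨i, hi⟩, !b)] := by
      simp [toWord, List.filterMap, hi]
    have e' : toWord m [] = [] := rfl
    rw [e, e']
    have := Relation.EqvGen.rel _ _ (Move.cancel u v ⟨i, hi⟩ b)
    simpa [MarkovEq] using this
  · have e : toWord m [(i, b), (i, !b)] = toWord m [] := by
      simp [toWord, List.filterMap, hi]
    rw [e]
    exact BEq.refl _

theorem bn_comm (i j : ℕ) (b c : Bool) (h : i + 2 ≤ j) :
    BNEq m [(i, b), (j, c)] [(j, c), (i, b)] := by
  unfold BNEq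
  by_cases hj : j < m
  · have hi : i < m := by omega
    intro u v
    have e : toWord m [(i, b), (j, c)] = [(⟨i, hi⟩, b), (⟨j, hj⟩, c)] := by
      simp [toWord, List.filterMap, hi, hj]
    have e' : toWord m [(j, c), (i, b)] = [(⟨j, hj⟩, c), (⟨i, hi⟩, b)] := by
      simp [toWord, List.filterMap, hi, hj]
    rw [e, e']
    have := Relation.EqvGen.rel _ _ (Move.comm u v ⟨i, hi⟩ ⟨j, hj⟩ b c h)
    simpa [MarkovEq] using this
  · have e : toWord m [(i, b), (j, c)] = toWord m [(j, c), (i, b)] := by
      simp [toWord, List.filterMap, hj]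
    rw [e]
    exact BEq.refl _

theorem bn_braid (i j : ℕ) (h : i + 1 = j) (hj : j < m) :
    BNEq m [(i, true), (j, true), (i, true)] [(j, true), (i, true), (j, true)] := by
  unfold BNEq
  have hi : i < m := by omega
  intro u v
  have e : toWord m [(i, true), (j, true), (i, true)] =
      [(⟨i, hi⟩, true), (⟨j, hj⟩, true), (⟨i, hi⟩, true)] := by
    simp [toWord, List.filterMap, hi, hj]
  have e' : toWord m [(j, true), (i, true), (j, true)] =
      [(⟨j, hj⟩, true), (⟨i, hi⟩, true), (⟨j, hj⟩, true)] := by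
    simp [toWord, List.filterMap, hi, hj]
  rw [e, e']
  have := Relation.EqvGen.rel _ _ (Move.braid u v ⟨i, hi⟩ ⟨j, hj⟩ h)
  simpa [MarkovEq] using this

theorem bn_braid' (i j : ℕ) (h : i + 1 = j) (hj : j < m) :
    BNEq m [(j, false), (i, true), (j, true)] [(i, true), (j, true), (i, false)] := by
  have s1 : BNEq m [(j, false), (i, true), (j, true)]
      [(j, false), (i, true), (j, true), (i, true), (i, false)] := by
    have := (bn_cancel (m := m) i true).mid [(j, false), (i, true), (j, true)] []
    simpa using this.symm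
  have s2 : BNEq m [(j, false), (i, true), (j, true), (i, true), (i, false)]
      [(j, false), (j, true), (i, true), (j, true), (i, false)] := by
    have := (bn_braid (m := m) i j h hj).mid [(j, false)] [(i, false)]
    simpa using this
  have s3 : BNEq m [(j, false), (j, true), (i, true), (j, true), (i, false)]
      [(i, true), (j, true), (i, false)] := by
    have := (bn_cancel (m := m) j false).mid [] [(i, true), (j, true), (i, false)]
    simpa using this
  exact (s1.trans s2).trans s3

theorem bn_comm_letter (p : ℕ) (b : Bool) (w : List (ℕ × Bool)) (h : ∀ x ∈ w, p + 2 ≤ x.1) :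
    BNEq m ((p, b) :: w) (w ++ [(p, b)]) := by
  induction w with
  | nil => exact BNEq.refl _
  | cons x w ih =>
    obtain ⟨q, c⟩ := x
    have h1 := (bn_comm (m := m) p q b c (h (q, c) (by simp))).mid [] w
    have h2 := (ih (fun x hx => h x (by simp [hx]))).mid [(q, c)] []
    have := BNEq.trans (by simpa using h1) (by simpa using h2)
    simpa using this

theorem bn_comm_words (p : ℕ) (w v : List (ℕ × Bool)) (hw : ∀ x ∈ w, x.1 < p)
    (hv : ∀ x ∈ v, p < x.1) : BNEq m (w ++ v) (v ++ w) := by
  induction w with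
  | nil => simpa using BNEq.refl (m := m) v
  | cons x w ih =>
    obtain ⟨q, c⟩ := x
    have h0 : q < p := hw (q, c) (by simp)
    have h1 := (ih (fun x hx => hw x (by simp [hx]))).mid [(q, c)] []
    have h2 := (bn_comm_letter (m := m) q c v (fun x hx => by
      have := hv x hx; omega)).mid [] w
    have := BNEq.trans (by simpa using h1) (by simpa using h2)
    simpa using this

theorem bn_mem_up {i j : ℕ} {x : ℕ × Bool} (h : x ∈ up i j) : i ≤ x.1 ∧ x.1 < j := by
  simp only [up, List.mem_map, List.mem_range'_1] at h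
  obtain ⟨a, ⟨h1, h2⟩, rfl⟩ := h
  simp only
  omega

theorem bn_mem_dn {i j : ℕ} {x : ℕ × Bool} (h : x ∈ dn j i) : i ≤ x.1 ∧ x.1 < j := by
  simp only [dn, List.mem_map, List.mem_reverse, List.mem_range'_1] at h
  obtain ⟨a, ⟨h1, h2⟩, rfl⟩ := h
  simp only
  omega

theorem bn_up_append {i j k : ℕ} (h : i ≤ j) (h' : j ≤ k) : up i k = up i j ++ up j k := by
  unfold up
  rw [← List.map_append]
  congr 1
  obtain ⟨a, rfl⟩ := Nat.exists_eq_add_of_le h
  obtain ⟨b, rfl⟩ := Nat.exists_eq_add_of_le h'
  have e1 : i + a + b - i = a + b := by omega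
  have e2 : i + a - i = a := by omega
  have e3 : i + a + b - (i + a) = b := by omega
  rw [e1, e2, e3]
  exact (List.range'_append_1 (s := i) (m := a) (n := b)).symm

theorem bn_dn_append {i j k : ℕ} (h : i ≤ j) (h' : j ≤ k) : dn k i = dn k j ++ dn j i := by
  unfold dn
  rw [← List.map_append, ← List.reverse_append]
  congr 2
  obtain ⟨a, rfl⟩ := Nat.exists_eq_add_of_le h
  obtain ⟨b, rfl⟩ := Nat.exists_eq_add_of_le h'
  have e1 : i + a + b - i = a + b := by omega
  have e2 : i + a - i = a := by omega
  have e3 : i + a + b - (i + a) = b := by omega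
  rw [e1, e2, e3]
  exact (List.range'_append_1 (s := i) (m := a) (n := b)).symm

theorem bn_up_one (k : ℕ) : up k (k + 1) = [(k, true)] := by
  simp [up]

theorem bn_dn_one (k : ℕ) : dn (k + 1) k = [(k, false)] := by
  simp [dn]

theorem bn_up_nil {i j : ℕ} (h : j ≤ i) : up i j = [] := by
  have : j - i = 0 := by omega
  simp [up, this]

theorem bn_dn_nil {i j : ℕ} (h : j ≤ i) : dn j i = [] := by
  have : j - i = 0 := by omega
  simp [dn, this]

/-- the middle identity -/
theorem bn_mid (j : ℕ) : ∀ k, j ≤ k → k < m →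
    BNEq m (dn (k + 1) (j + 1) ++ up j (k + 1)) (up j k ++ (k, true) :: dn k j) := by
  intro k hk
  induction k, hk using Nat.le_induction with
  | base =>
    intro _
    rw [bn_dn_nil le_rfl, bn_up_nil le_rfl, bn_dn_nil le_rfl, bn_up_one]
    exact BNEq.refl _
  | succ k hk ih =>
    intro hm
    have ih := ih (by omega)
    have e1 : dn (k + 1 + 1) (j + 1) = (k + 1, false) :: dn (k + 1) (j + 1) := by
      rw [bn_dn_append (show j + 1 ≤ k + 1 by omega) (show k + 1 ≤ k + 1 + 1 by omega), bn_dn_one]
      rfl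
    have e2 : up j (k + 1 + 1) = up j (k + 1) ++ [(k + 1, true)] := by
      rw [bn_up_append (show j ≤ k + 1 by omega) (show k + 1 ≤ k + 1 + 1 by omega), bn_up_one]
    have e3 : up j (k + 1) = up j k ++ [(k, true)] := by
      rw [bn_up_append (show j ≤ k by omega) (show k ≤ k + 1 by omega), bn_up_one]
    have e4 : dn (k + 1) j = (k, false) :: dn k j := by
      rw [bn_dn_append (show j ≤ k by omega) (show k ≤ k + 1 by omega), bn_dn_one]
      rfl
    have s1 : BNEq m (dn (k + 1 + 1) (j + 1) ++ up j (k + 1 + 1))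
        ([(k + 1, false)] ++ (up j k ++ (k, true) :: dn k j) ++ [(k + 1, true)]) := by
      rw [e1, e2]
      have := ih.mid [(k + 1, false)] [(k + 1, true)]
      simpa using this
    have s2 : BNEq m ([(k + 1, false)] ++ (up j k ++ (k, true) :: dn k j) ++ [(k + 1, true)])
        (up j k ++ [(k + 1, false), (k, true)] ++ dn k j ++ [(k + 1, true)]) := by
      have := (bn_comm_words (m := m) k (up j k) [(k + 1, false)]
        (fun x hx => (bn_mem_up hx).2) (by simp)).mid []
        ((k, true) :: dn k j ++ [(k + 1, true)])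
      simpa using this.symm
    have s3 : BNEq m (up j k ++ [(k + 1, false), (k, true)] ++ dn k j ++ [(k + 1, true)])
        (up j k ++ [(k + 1, false), (k, true), (k + 1, true)] ++ dn k j) := by
      have := (bn_comm_words (m := m) k (dn k j) [(k + 1, true)]
        (fun x hx => (bn_mem_dn hx).2) (by simp)).mid
        (up j k ++ [(k + 1, false), (k, true)]) []
      simpa using this
    have s4 : BNEq m (up j k ++ [(k + 1, false), (k, true), (k + 1, true)] ++ dn k j)
        (up j k ++ [(k, true), (k + 1, true), (k, false)] ++ dn k j) :=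
      (bn_braid' (m := m) k (k + 1) rfl hm).mid _ _
    have s5 : up j k ++ [(k, true), (k + 1, true), (k, false)] ++ dn k j =
        up j (k + 1) ++ (k + 1, true) :: dn (k + 1) j := by
      rw [e3, e4]
      simp
    rw [← s5]
    exact ((s1.trans s2).trans s3).trans s4

/-- an interleaved pair, the edge that goes up comes first -/
theorem key_false {i j k l : ℕ} (h1 : i ≤ j) (h2 : j ≤ k) (h3 : k ≤ l) (h4 : l < m) :
    BEq (toWord m (slide i k ++ slide (l + 1) j))
      (toWord m (dn (l + 1) (k + 1) ++ up i k ++ (k, false) :: dn k j)) := by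
  have e1 : slide i k = up i k := by
    unfold slide
    rw [bn_dn_nil (show i ≤ k by omega)]
    simp
  have e2 : slide (l + 1) j = dn (l + 1) (k + 1) ++ (k, false) :: dn k j := by
    unfold slide
    rw [bn_up_nil (show j ≤ l + 1 by omega),
      bn_dn_append (show j ≤ k + 1 by omega) (show k + 1 ≤ l + 1 by omega),
      bn_dn_append (show j ≤ k by omega) (show k ≤ k + 1 by omega), bn_dn_one]
    simp
  rw [e1, e2]
  have := (bn_comm_words (m := m) k (up i k) (dn (l + 1) (k + 1))
    (fun x hx => (bn_mem_up hx).2) (fun x hx => by have := (bn_mem_dn hx).1; omega)).mid []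
    ((k, false) :: dn k j)
  have h : BNEq m (up i k ++ (dn (l + 1) (k + 1) ++ (k, false) :: dn k j))
      (dn (l + 1) (k + 1) ++ up i k ++ (k, false) :: dn k j) := by
    simpa using this
  exact h

/-- an interleaved pair, the edge that goes down comes first -/
theorem key_true {i j k l : ℕ} (h1 : i ≤ j) (h2 : j ≤ k) (h3 : k ≤ l) (h4 : l < m) :
    BEq (toWord m (slide (l + 1) (j + 1) ++ slide i (k + 1)))
      (toWord m (dn (l + 1) (k + 1) ++ up i k ++ (k, true) :: dn k j)) := by
  have e1 : slide i (k + 1) = up i j ++ up j (k + 1) := by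
    unfold slide
    rw [bn_dn_nil (show i ≤ k + 1 by omega),
      bn_up_append (show i ≤ j by omega) (show j ≤ k + 1 by omega)]
    simp
  have e2 : slide (l + 1) (j + 1) = dn (l + 1) (k + 1) ++ dn (k + 1) (j + 1) := by
    unfold slide
    rw [bn_up_nil (show j + 1 ≤ l + 1 by omega),
      bn_dn_append (show j + 1 ≤ k + 1 by omega) (show k + 1 ≤ l + 1 by omega)]
    simp
  have e3 : up i k = up i j ++ up j k := bn_up_append h1 h2
  rw [e1, e2]
  have s1 : BNEq m (dn (l + 1) (k + 1) ++ dn (k + 1) (j + 1) ++ (up i j ++ up j (k + 1)))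
      (dn (l + 1) (k + 1) ++ up i j ++ (dn (k + 1) (j + 1) ++ up j (k + 1))) := by
    have := (bn_comm_words (m := m) j (up i j) (dn (k + 1) (j + 1))
      (fun x hx => (bn_mem_up hx).2) (fun x hx => by have := (bn_mem_dn hx).1; omega)).mid
      (dn (l + 1) (k + 1)) (up j (k + 1))
    simpa using this.symm
  have s2 : BNEq m (dn (l + 1) (k + 1) ++ up i j ++ (dn (k + 1) (j + 1) ++ up j (k + 1)))
      (dn (l + 1) (k + 1) ++ up i j ++ (up j k ++ (k, true) :: dn k j)) :=
    BNEq.append (BNEq.refl _) (bn_mid j k h2 (by omega))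
  have s3 : dn (l + 1) (k + 1) ++ up i j ++ (up j k ++ (k, true) :: dn k j) =
      dn (l + 1) (k + 1) ++ up i k ++ (k, true) :: dn k j := by
    rw [e3]
    simp
  rw [← s3]
  exact s1.trans s2

end RandomGrid
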