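import Pool.Agent.Helper46.Grid.Defs2

namespace RandomGrid

open VassBraid Finset Function

variable {n : ℕ}

theorem col_val {n j : ℕ} (h : j ≤ n) : ((col n j : Fin (n + 1)) : ℕ) = j := by
  unfold col
  simp only [Fin.ofNat]
  exact Nat.mod_eq_of_lt (by omega)

theorem twFn_val (n : ℕ) (s : Finset ℕ) (x : Fin (n + 1)) :
    ((twFn n s x : Fin (n + 1)) : ℕ) =
      if (x : ℕ) / 2 ∈ s then (if (x : ℕ) % 2 = 0 then (if (x : ℕ) + 1 ≤ n then (x : ℕ) + 1 else x)
        else (x : ℕ) - 1) else x := by
  have hx := x.2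
  unfold twFn
  split_ifs with h1 h2 h3
  · rw [col_val h3]
  · rfl
  · rw [col_val (by omega)]
  · rfl

theorem twFn_div (n : ℕ) (s : Finset ℕ) (x : Fin (n + 1)) :
    ((twFn n s x : Fin (n + 1)) : ℕ) / 2 = (x : ℕ) / 2 := by
  rw [twFn_val]
  split_ifs <;> omega

theorem twFn_invol (n : ℕ) (s : Finset ℕ) : Function.Involutive (twFn n s) := by
  intro x
  apply Fin.ext
  have hx := x.2
  have hd := twFn_div n s x
  rw [twFn_val n s (twFn n s x), hd]
  have hv := twFn_val n s x
  by_cases h : (x : ℕ) / 2 ∈ s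
  · simp only [h, if_true] at hv ⊢
    rw [hv]
    split_ifs <;> omega
  · simp only [h, if_false] at hv ⊢
    exact hv

/-- exchange the columns `2 j` and `2 j + 1`, for `j ∈ s` -/
def tw (n : ℕ) (s : Finset ℕ) : Equiv.Perm (Fin (n + 1)) := (twFn_invol n s).toPerm

theorem tw_apply (n : ℕ) (s : Finset ℕ) (x : Fin (n + 1)) : tw n s x = twFn n s x := rfl

theorem tw_symm_apply (n : ℕ) (s : Finset ℕ) (x : Fin (n + 1)) :
    (tw n s).symm x = tw n s x := rfl

theorem tw_mul_symm (s : Finset ℕ) (c : Equiv.Perm (Fin (n + 1))) (x : Fin (n + 1)) :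
    (tw n s * c).symm x = c.symm (tw n s x) := rfl

theorem edge_tw (c r : Equiv.Perm (Fin (n + 1))) (s : Finset ℕ) (x : Fin (n + 1)) :
    edge (tw n s * c) r x = edge c r (tw n s x) := rfl

theorem tw_even (s : Finset ℕ) {j : ℕ} (h : 2 * j + 1 ≤ n) :
    tw n s (col n (2 * j)) = if j ∈ s then col n (2 * j + 1) else col n (2 * j) := by
  apply Fin.ext
  rw [tw_apply, twFn_val, col_val (by omega : 2 * j ≤ n)]
  have h1 : 2 * j / 2 = j := by omega
  have h2 : 2 * j % 2 = 0 := by omega
  rw [h1]
  split_ifs with h3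
  · rw [col_val h]
  · rw [col_val (by omega)]

theorem tw_odd (s : Finset ℕ) {j : ℕ} (h : 2 * j + 1 ≤ n) :
    tw n s (col n (2 * j + 1)) = if j ∈ s then col n (2 * j) else col n (2 * j + 1) := by
  apply Fin.ext
  rw [tw_apply, twFn_val, col_val h]
  have h1 : (2 * j + 1) / 2 = j := by omega
  have h2 : ¬ (2 * j + 1) % 2 = 0 := by omega
  rw [h1, if_neg h2]
  split_ifs with h3
  · rw [col_val (by omega)]; omega
  · rw [col_val (by omega)]

theorem tw_not (s : Finset ℕ) (x : Fin (n + 1)) (h : (x : ℕ) / 2 ∉ s) : tw n s x = x := by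
  apply Fin.ext
  rw [tw_apply, twFn_val, if_neg h]

theorem map_finRange_eq {β : Type*} (f : Fin (n + 1) → β) :
    (List.finRange (n + 1)).map f = (List.range (n + 1)).map fun j => f (col n j) := by
  apply List.ext_getElem
  · simp
  · intro i h1 h2
    simp only [List.length_map, List.length_finRange] at h1
    simp only [List.getElem_map, List.getElem_finRange, List.getElem_range]
    congr 1
    apply Fin.ext
    rw [col_val (by omega)]
    simp

theorem range_two_mul {β : Type*} (f : ℕ → β) (q : ℕ) :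
    (List.range (2 * q)).map f = (List.range q).flatMap fun j => [f (2 * j), f (2 * j + 1)] := by
  induction q with
  | zero => simp
  | succ q ih =>
    rw [List.range_succ, List.flatMap_append, ← ih]
    rw [show 2 * (q + 1) = (2 * q + 1) + 1 by ring, List.range_succ, List.range_succ]
    simp

theorem range_split (a b : ℕ) (h : a ≤ b) :
    List.range b = List.range a ++ List.range' a (b - a) := by
  have h2 := List.range'_append_1 (s := 0) (m := a) (n := b - a)
  rw [Nat.zero_add, Nat.add_sub_cancel' h] at h2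
  rw [List.range_eq_range', List.range_eq_range', h2]

theorem moves_split (c r : Equiv.Perm (Fin (n + 1))) (g : Fin (n + 1) → Fin (n + 1)) :
    (List.finRange (n + 1)).map (fun x => edge c r (g x)) =
      ((List.range (2 * ((n + 1) / 4))).flatMap fun j =>
        [edge c r (g (col n (2 * j))), edge c r (g (col n (2 * j + 1)))]) ++
      (List.range' (4 * ((n + 1) / 4)) (n + 1 - 4 * ((n + 1) / 4))).map
        fun j => edge c r (g (col n j)) := by
  rw [map_finRange_eq, ← range_two_mul (fun j => edge c r (g (col n j))),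
    range_split (4 * ((n + 1) / 4)) (n + 1) (by omega), List.map_append]
  congr 3
  omega

theorem moves_tw (c r : Equiv.Perm (Fin (n + 1))) (J s : Finset ℕ)
    (hJ : ∀ j ∈ J, j < 2 * ((n + 1) / 4)) (hs : s ⊆ J) :
    moves (tw n s * c) r = tog (PL c r J) (fun j => decide (j ∈ s)) ++ tailL c r := by
  have h0 : moves (tw n s * c) r =
      (List.finRange (n + 1)).map (fun x => edge c r (tw n s x)) := rfl
  rw [h0, moves_split]
  congr 1
  · unfold tog PL
    rw [List.flatMap_map]
    apply List.flatMap_congr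
    intro j hj
    rw [List.mem_range] at hj
    rw [tw_even s (by omega), tw_odd s (by omega)]
    by_cases hJj : j ∈ J
    · simp only [hJj, if_true, decide_eq_true_eq]
      by_cases hsj : j ∈ s
      · simp [hsj]
      · simp [hsj]
    · have hsj : j ∉ s := fun h => hJj (hs h)
      simp [hJj, hsj]
  · unfold tailL
    apply List.map_congr_left
    intro j hj
    rw [List.mem_range'_1] at hj
    rw [tw_not]
    rw [col_val (by omega)]
    intro hmem
    have := hJ _ (hs hmem)
    omega

theorem TIs_ne {α : Type*} [LinearOrder α] {u v : α × α} (h : TIs u v) :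
    u.2 ≠ v.1 ∧ v.2 ≠ u.1 := by
  rcases h with h | h
  · obtain ⟨h1, h2, h3⟩ := h
    exact ⟨ne_of_lt h3, ne_of_gt h1⟩
  · obtain ⟨h1, h2, h3⟩ := h
    exact ⟨ne_of_gt h1, ne_of_lt h3⟩

theorem wrap_tw (c r : Equiv.Perm (Fin (n + 1))) (s : Finset ℕ)
    (hs : ∀ j ∈ s, 2 * j + 1 ≤ n ∧ TIs (edge c r (col n (2 * j))) (edge c r (col n (2 * j + 1)))) :
    wrap (tw n s * c) r = wrap c r := by
  unfold wrap
  apply Finset.filter_congr
  intro y _
  set k := r.symm y
  show tw n s (c (k + 1)) < tw n s (c k) ↔ c (k + 1) < c k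
  set a := c (k + 1) with ha
  set b := c k with hb
  have hea : edge c r a = (r k, r (k + 1)) := by
    unfold edge
    rw [ha, Equiv.symm_apply_apply, add_sub_cancel_right]
  have heb : edge c r b = (r (k - 1), r k) := by
    unfold edge
    rw [hb, Equiv.symm_apply_apply]
  by_cases hab : a = b
  · rw [hab]; simp
  have hda := twFn_div n s a
  have hdb := twFn_div n s b
  have hva := twFn_val n s a
  have hvb := twFn_val n s b
  have ha2 := a.2
  have hb2 := b.2
  have hne : (a : ℕ) ≠ (b : ℕ) := fun h => hab (Fin.ext h)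
  rw [Fin.lt_def, Fin.lt_def, tw_apply, tw_apply]
  by_cases hdiv : (a : ℕ) / 2 = (b : ℕ) / 2
  · by_cases hmem : (a : ℕ) / 2 ∈ s
    · exfalso
      obtain ⟨h1, h2⟩ := hs _ hmem
      obtain ⟨h3, h4⟩ := TIs_ne h2
      rcases Nat.lt_or_gt_of_ne hne with hlt | hlt
      · have e1 : col n (2 * ((a : ℕ) / 2)) = a := by
          apply Fin.ext; rw [col_val (by omega)]; omega
        have e2 : col n (2 * ((a : ℕ) / 2) + 1) = b := by
          apply Fin.ext; rw [col_val (by omega)]; omega
        rw [e1, e2, hea, heb] at h3 h4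
        exact h4 rfl
      · have e1 : col n (2 * ((a : ℕ) / 2)) = b := by
          apply Fin.ext; rw [col_val (by omega)]; omega
        have e2 : col n (2 * ((a : ℕ) / 2) + 1) = a := by
          apply Fin.ext; rw [col_val (by omega)]; omega
        rw [e1, e2, hea, heb] at h3 h4
        exact h3 rfl
    · rw [if_neg hmem] at hva
      rw [if_neg (hdiv ▸ hmem)] at hvb
      omega
  · omega

theorem tw_mul (n : ℕ) (s s' : Finset ℕ) : tw n s * tw n s' = tw n (symmDiff s s') := by
  apply Equiv.ext
  intro x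
  apply Fin.ext
  show ((twFn n s (twFn n s' x) : Fin (n + 1)) : ℕ) = ((twFn n (symmDiff s s') x : Fin (n + 1)) : ℕ)
  have hx := x.2
  have hd := twFn_div n s' x
  have hv := twFn_val n s' x
  rw [twFn_val n s, twFn_val n (symmDiff s s'), hd]
  simp only [Finset.mem_symmDiff]
  by_cases h : (x : ℕ) / 2 ∈ s <;> by_cases h' : (x : ℕ) / 2 ∈ s'
  · simp only [h, h', if_true, not_true_eq_false, and_false, or_self, if_false] at hv ⊢
    rw [hv]
    split_ifs <;> omega
  · simp only [h, h', if_true, not_false_eq_true, and_true, true_or, if_false] at hv ⊢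
    rw [hv]
  · simp only [h, h', if_true, not_false_eq_true, and_true, or_true, if_false] at hv ⊢
    rw [hv]
  · simp only [h, h', if_false, not_false_eq_true, and_true, or_self] at hv ⊢
    exact hv

theorem Alt_swap12 (p q s t : Fin (n + 1)) : Alt q p s t ↔ Alt p q s t := by
  unfold Alt
  rw [min_comm q p, max_comm q p]

theorem Alt_swap34 (p q s t : Fin (n + 1)) : Alt p q t s ↔ Alt p q s t := by
  unfold Alt
  rw [or_comm]

theorem TIs_comm {α : Type*} [LinearOrder α] (u v : α × α) : TIs v u ↔ TIs u v := by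
  unfold TIs
  rw [or_comm]

/-- a good block stays good when pairs of columns are exchanged -/
theorem good_tw (c r : Equiv.Perm (Fin (n + 1))) (s : Finset ℕ) (i : ℕ) (hi : i < (n + 1) / 4) :
    Good (tw n s * c) r i ↔ Good c r i := by
  unfold Good AltBlock
  simp only [edge_tw, tw_mul_symm]
  have e0 : (4 * i : ℕ) = 2 * (2 * i) := by ring
  have e1 : (4 * i + 1 : ℕ) = 2 * (2 * i) + 1 := by ring
  have e2 : (4 * i + 2 : ℕ) = 2 * (2 * i + 1) := by ring
  have e3 : (4 * i + 3 : ℕ) = 2 * (2 * i + 1) + 1 := by ring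
  rw [e3, e2, e1, e0, tw_even s (by omega : 2 * (2 * i) + 1 ≤ n),
    tw_odd s (by omega : 2 * (2 * i) + 1 ≤ n), tw_even s (by omega : 2 * (2 * i + 1) + 1 ≤ n),
    tw_odd s (by omega : 2 * (2 * i + 1) + 1 ≤ n)]
  by_cases h1 : 2 * i ∈ s <;> by_cases h2 : 2 * i + 1 ∈ s
  · simp only [h1, h2, if_true]
    rw [Alt_swap12, Alt_swap34, TIs_comm, TIs_comm (edge c r (col n (2 * (2 * i + 1))))]
  · simp only [h1, h2, if_true, if_false]
    rw [Alt_swap12, TIs_comm]
  · simp only [h1, h2, if_true, if_false]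
    rw [Alt_swap34, TIs_comm (edge c r (col n (2 * (2 * i + 1))))]
  · simp only [h1, h2, if_false]

end RandomGrid
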