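import Pool.Agent.Helper46.Grid.Inter
import Pool.Agent.Helper46.Grid.Tw

namespace RandomGrid

open VassBraid Finset Function

variable {n : ℕ}

lemma cube_f2_markov {x y : CBraid} (h : MarkovEq x y) : f2 x = f2 y := by
  rw [f2, f2, nab_markov sX qn_ne h]

lemma cube_mem_pairsOf (G : Finset ℕ) (j : ℕ) : j ∈ pairsOf G ↔ j / 2 ∈ G := by
  simp only [pairsOf, mem_biUnion, mem_insert, mem_singleton]
  constructor
  · rintro ⟨i, hi, h⟩
    have : j / 2 = i := by omega
    rwa [this]
  · intro h
    exact ⟨j / 2, h, by omega⟩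

lemma cube_card_pairsOf (G : Finset ℕ) : (pairsOf G).card = 2 * G.card := by
  rw [pairsOf, card_biUnion]
  · rw [sum_congr rfl (fun i _ => card_pair (by omega : 2 * i ≠ 2 * i + 1)), sum_const,
      smul_eq_mul, mul_comm]
  · intro i _ j _ hij
    change Disjoint _ _
    rw [Finset.disjoint_left]
    intro x hx hx'
    simp only [mem_insert, mem_singleton] at hx hx'
    omega

lemma cube_PL_mem (c r : Equiv.Perm (Fin (n + 1))) (J : Finset ℕ) (j : ℕ) (hj : j ∈ J)
    (hlt : j < 2 * ((n + 1) / 4)) :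
    ((some j, edge c r (col n (2 * j)), edge c r (col n (2 * j + 1))) : Pair (Fin (n + 1)))
      ∈ PL c r J := by
  rw [PL, List.mem_map]
  exact ⟨j, List.mem_range.mpr hlt, by rw [if_pos hj]⟩

/-- the cube of exchanges for pairs in canonical order -/
theorem cube_canon (hn : 1 ≤ n) (c r : Equiv.Perm (Fin (n + 1))) (G : Finset ℕ)
    (hG : ∀ i ∈ G, i < (n + 1) / 4) (hne : 0 < G.card) (hTI : AllTI (PL c r (pairsOf G)))
    (hA : ∀ i ∈ G, AltBlock c i) (a : ℚ) :
    (((pairsOf G).powerset.filter fun s => f2 (gridKnot (tw n s * c) r) = a).card : ℝ)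
      ≤ 5 / 2 / (G.card : ℝ) ^ (1 / 8 : ℝ) * 2 ^ (2 * G.card) := by
  classical
  have hP : (wrap c r).card = ((wrap c r).card - 1) + 1 := wrap_card hn c r
  have hJlt : ∀ j ∈ pairsOf G, j < 2 * ((n + 1) / 4) := by
    intro j hj
    have := hG _ ((cube_mem_pairsOf G j).mp hj)
    omega
  have hv := (valid_moves hn c r).1
  rw [moves_eq c r (pairsOf G)] at hv
  have hdp := dp_tmpl (PL c r (pairsOf G)) (tailL c r) (wrap c r) hP hv hTI
  obtain ⟨hnd, hmem⟩ := names_PL c r (pairsOf G) hJlt
  have hlen : (names (PL c r (pairsOf G))).length = 2 * G.card := by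
    rw [← List.toFinset_card_of_nodup hnd, ← cube_card_pairsOf]
    congr 1
    ext j
    rw [List.mem_toFinset, hmem]
  set S := tmpl ((wrap c r).card - 1) (PL c r (pairsOf G)) (tailL c r) (wrap c r) with hS
  have hidx : ∀ j ∈ pairsOf G, (names (PL c r (pairsOf G))).idxOf j < doublePoints S := by
    intro j hj
    rw [hdp]
    exact List.idxOf_lt_length_iff.mpr ((hmem j).mpr hj)
  have hget : ∀ j (_ : j ∈ pairsOf G), ∀ h : (names (PL c r (pairsOf G))).idxOf j <
      (names (PL c r (pairsOf G))).length,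
      (names (PL c r (pairsOf G)))[(names (PL c r (pairsOf G))).idxOf j] = j := by
    intro j hj h
    exact List.getElem_idxOf h
  have hm0 : ∀ i ∈ G, 2 * i ∈ pairsOf G := fun i hi =>
    (cube_mem_pairsOf G _).mpr (by rwa [Nat.mul_div_cancel_left _ (by norm_num)])
  have hm1 : ∀ i ∈ G, 2 * i + 1 ∈ pairsOf G := fun i hi =>
    (cube_mem_pairsOf G _).mpr (by rwa [show (2 * i + 1) / 2 = i by omega])
  let e : Fin G.card ≃ G := G.equivFin.symm
  let p : Fin G.card → Fin (doublePoints S) := fun t =>
    ⟨(names (PL c r (pairsOf G))).idxOf (2 * (e t : ℕ)), hidx _ (hm0 _ (e t).2)⟩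
  let q : Fin G.card → Fin (doublePoints S) := fun t =>
    ⟨(names (PL c r (pairsOf G))).idxOf (2 * (e t : ℕ) + 1), hidx _ (hm1 _ (e t).2)⟩
  have hidxinj : ∀ j ∈ pairsOf G, ∀ j' ∈ pairsOf G, (names (PL c r (pairsOf G))).idxOf j =
      (names (PL c r (pairsOf G))).idxOf j' → j = j' := by
    intro j hj j' hj' h
    have h1 := hget j hj (List.idxOf_lt_length_iff.mpr ((hmem j).mpr hj))
    have h2 := hget j' hj' (List.idxOf_lt_length_iff.mpr ((hmem j').mpr hj'))
    rw [← h1, ← h2]
    congr 1
  have hinj : Injective (Sum.elim p q) := by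
    rintro (t | t) (t' | t') h
    · have := hidxinj _ (hm0 _ (e t).2) _ (hm0 _ (e t').2) (congrArg Fin.val h)
      congr 1
      exact e.injective (Subtype.ext (by omega))
    · have := hidxinj _ (hm0 _ (e t).2) _ (hm1 _ (e t').2) (congrArg Fin.val h)
      omega
    · have := hidxinj _ (hm1 _ (e t).2) _ (hm0 _ (e t').2) (congrArg Fin.val h)
      omega
    · have := hidxinj _ (hm1 _ (e t).2) _ (hm1 _ (e t').2) (congrArg Fin.val h)
      congr 1
      exact e.injective (Subtype.ext (by omega))
  have hpq : ∀ t, Interlaced S (p t) (q t) := by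
    intro t
    exact inter_tmpl hn c r G hG hTI (e t) (e t).2 (hA _ (e t).2) _ _
      (List.idxOf_lt_length_iff.mpr ((hmem _).mpr (hm0 _ (e t).2)))
      (List.idxOf_lt_length_iff.mpr ((hmem _).mpr (hm1 _ (e t).2)))
      (hget _ (hm0 _ (e t).2) _) (hget _ (hm1 _ (e t).2) _)
  have hlev := shadow_level S hne p q hinj hpq a
  have hexp : (2 : ℝ) ^ (2 * G.card) = 2 ^ (doublePoints S) := by rw [hdp, hlen]
  rw [hexp]
  refine le_trans (Nat.cast_le.mpr (card_le_card_of_injOn
    (fun s => fun t : Fin (doublePoints S) =>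
      decide ((names (PL c r (pairsOf G))).getD (t : ℕ) 0 ∈ s)) ?_ ?_)) hlev
  · intro s hs
    rw [mem_coe, mem_filter, mem_powerset] at hs
    rw [mem_coe, mem_filter]
    refine ⟨mem_univ _, ?_⟩
    rw [← hs.2, fill_eq]
    apply cube_f2_markov
    have hkey := (fill_tmpl (PL c r (pairsOf G)) (tailL c r) (wrap c r) hP hv hTI
      (fun j => decide (j ∈ s))
      (fun t => (List.ofFn (fun t : Fin (doublePoints S) =>
        decide ((names (PL c r (pairsOf G))).getD (t : ℕ) 0 ∈ s))).getD t true) (by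
      intro t ht
      have ht' : t < doublePoints S := by rw [hdp]; exact ht
      rw [List.getD_eq_getElem _ _ (by simpa using ht')]
      simp only [List.getElem_ofFn]
      rw [List.getD_eq_getElem _ _ ht])).markov
    have hw : wrap (tw n s * c) r = wrap c r := by
      apply wrap_tw
      intro j hj
      have hj1 := hJlt j (hs.1 hj)
      exact ⟨by omega, Or.inl (hTI _ (cube_PL_mem c r _ j (hs.1 hj) hj1) (by simp))⟩
    have hmv := moves_tw c r (pairsOf G) s hJlt hs.1
    have hgk : gridKnot (tw n s * c) r = ⟨(wrap c r).card - 1, toWord _ (gridWord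
        (tog (PL c r (pairsOf G)) (fun j => decide (j ∈ s)) ++ tailL c r) (wrap c r))⟩ := by
      unfold gridKnot
      rw [hw, hmv]
    rw [hgk]
    exact hkey
  · intro s hs s' hs' h
    rw [mem_coe, mem_filter, mem_powerset] at hs hs'
    have hkey : ∀ j ∈ pairsOf G, (j ∈ s ↔ j ∈ s') := by
      intro j hj
      have h1 := congrFun h ⟨_, hidx j hj⟩
      simp only at h1
      have h2 : (names (PL c r (pairsOf G))).getD
          ((names (PL c r (pairsOf G))).idxOf j) 0 = j := by
        rw [List.getD_eq_getElem _ _ (List.idxOf_lt_length_iff.mpr ((hmem j).mpr hj))]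
        exact hget j hj _
      rw [h2] at h1
      simpa using h1
    ext j
    constructor
    · intro hj; exact (hkey j (hs.1 hj)).mp hj
    · intro hj; exact (hkey j (hs'.1 hj)).mpr hj

lemma cube_edge_tw (c r : Equiv.Perm (Fin (n + 1))) (s : Finset ℕ) (x : Fin (n + 1)) :
    edge (tw n s * c) r x = edge c r (twFn n s x) := rfl

lemma cube_col_val {j : ℕ} (h : j ≤ n) : ((col n j : Fin (n + 1)) : ℕ) = j := by
  simp [col, Fin.ofNat, Nat.mod_eq_of_lt (Nat.lt_succ_of_le h)]

lemma cube_tw_even {s : Finset ℕ} {j : ℕ} (h : 2 * j + 1 ≤ n) :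
    twFn n s (col n (2 * j)) = if j ∈ s then col n (2 * j + 1) else col n (2 * j) := by
  have h1 : (2 * j) / 2 = j := by omega
  have h2 : (2 * j) % 2 = 0 := by omega
  rw [twFn, cube_col_val (by omega), h1, h2]
  simp [h]

lemma cube_tw_odd {s : Finset ℕ} {j : ℕ} (h : 2 * j + 1 ≤ n) :
    twFn n s (col n (2 * j + 1)) = if j ∈ s then col n (2 * j) else col n (2 * j + 1) := by
  have h1 : (2 * j + 1) / 2 = j := by omega
  have h2 : (2 * j + 1) % 2 = 1 := by omega
  rw [twFn, cube_col_val (by omega), h1, h2]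
  simp

/-- the same for the set of the good blocks -/
theorem cube_good (hn : 1 ≤ n) (c r : Equiv.Perm (Fin (n + 1))) (hne : 0 < (goods c r).card)
    (a : ℚ) :
    (((pairsOf (goods c r)).powerset.filter fun s => f2 (gridKnot (tw n s * c) r) = a).card : ℝ)
      ≤ 5 / 2 / ((goods c r).card : ℝ) ^ (1 / 8 : ℝ) * 2 ^ (2 * (goods c r).card) := by
  classical
  have hG : ∀ i ∈ goods c r, i < (n + 1) / 4 := by
    intro i hi
    rw [goods, mem_filter, mem_range] at hi
    exact hi.1
  have hGood : ∀ i ∈ goods c r, Good c r i := by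
    intro i hi
    rw [goods, mem_filter] at hi
    exact hi.2
  set s0 := (pairsOf (goods c r)).filter fun j =>
    TI (edge c r (col n (2 * j + 1))) (edge c r (col n (2 * j))) with hs0
  have hTIs : ∀ j ∈ pairsOf (goods c r), 2 * j + 1 ≤ n ∧
      TIs (edge c r (col n (2 * j))) (edge c r (col n (2 * j + 1))) := by
    intro j hj
    have h1 := (cube_mem_pairsOf _ _).mp hj
    have h2 := hG _ h1
    have h3 := hGood _ h1
    refine ⟨by omega, ?_⟩
    rcases Nat.mod_two_eq_zero_or_one j with h | h
    · have e1 : 4 * (j / 2) = 2 * j := by omega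
      have h4 := h3.2.1
      rw [e1] at h4
      exact h4
    · have e1 : 4 * (j / 2) + 2 = 2 * j := by omega
      have e2 : 4 * (j / 2) + 3 = 2 * j + 1 := by omega
      have h4 := h3.2.2
      rw [e1, e2] at h4
      exact h4
  have hAll : AllTI (PL (tw n s0 * c) r (pairsOf (goods c r))) := by
    intro x hx hx1
    rw [PL, List.mem_map] at hx
    obtain ⟨j, _, rfl⟩ := hx
    have hjJ : j ∈ pairsOf (goods c r) := by
      by_contra hcon
      apply hx1
      simp only
      rw [if_neg hcon]
    obtain ⟨h1, h2⟩ := hTIs j hjJ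
    simp only [cube_edge_tw, cube_tw_even h1, cube_tw_odd h1]
    by_cases hj0 : j ∈ s0
    · rw [if_pos hj0, if_pos hj0]
      exact (mem_filter.mp hj0).2
    · rw [if_neg hj0, if_neg hj0]
      rcases h2 with h2 | h2
      · exact h2
      · exact absurd (mem_filter.mpr ⟨hjJ, h2⟩) hj0
  have hAlt : ∀ i ∈ goods c r, AltBlock (tw n s0 * c) i := by
    intro i hi
    exact ((good_tw c r s0 i (hG i hi)).mpr (hGood i hi)).1
  have hmain := cube_canon hn (tw n s0 * c) r (goods c r) hG hne hAll hAlt a
  refine le_trans (Nat.cast_le.mpr (card_le_card_of_injOn (fun s => symmDiff s s0) ?_ ?_)) hmain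
  · intro s hs
    rw [mem_coe, mem_filter, mem_powerset] at hs
    rw [mem_coe, mem_filter, mem_powerset]
    constructor
    · intro j hj
      rw [mem_symmDiff] at hj
      rcases hj with hj | hj
      · exact hs.1 hj.1
      · exact (mem_filter.mp hj.1).1
    · rw [← mul_assoc, tw_mul]
      simp only [symmDiff_symmDiff_cancel_right]
      exact hs.2
  · intro s _ s' _ h
    exact symmDiff_left_injective s0 h

end RandomGrid
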