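import Pool.Agent.Helper46.Grid.Defs2

namespace RandomGrid

open VassBraid Finset Function

variable {n : ℕ}

theorem rot_cycle (n : ℕ) (x y : Fin (n + 1)) : (finRotate (n + 1)).SameCycle x y := by
  rcases n with _ | n
  · obtain rfl : x = y := by apply Fin.ext; omega
    exact Equiv.Perm.SameCycle.refl _ _
  · have h : ∀ z : Fin (n + 2), finRotate (n + 2) z ≠ z := by
      intro z
      rw [← Equiv.Perm.mem_support, support_finRotate]
      exact mem_univ z
    exact isCycle_finRotate.sameCycle (h x) (h y)

private theorem rot_val {j : ℕ} (h : j < n) (h' : j < n + 1) :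
    finRotate (n + 1) ⟨j, h'⟩ = ⟨j + 1, by omega⟩ := finRotate_of_lt h

private theorem base_cycle (k1 k2 k3 k4 : Fin (n + 1)) (h13 : k1 < k3) (h32 : k3 < k2)
    (h24 : k2 < k4) (x y : Fin (n + 1)) :
    (Equiv.swap k1 k2 * Equiv.swap k3 k4 * finRotate (n + 1)).SameCycle x y := by
  set f := Equiv.swap k1 k2 * Equiv.swap k3 k4 * finRotate (n + 1) with hf
  have fa : ∀ z, f z = Equiv.swap k1 k2 (Equiv.swap k3 k4 (finRotate (n + 1) z)) := fun z => rfl
  have h12 : k1 < k2 := h13.trans h32
  have h14 : k1 < k4 := h12.trans h24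
  have h34 : k3 < k4 := h32.trans h24
  have e1 : f ((finRotate (n + 1)).symm k1) = k2 := by
    rw [fa, Equiv.apply_symm_apply, Equiv.swap_apply_of_ne_of_ne h13.ne h14.ne,
      Equiv.swap_apply_left]
  have e2 : f ((finRotate (n + 1)).symm k2) = k1 := by
    rw [fa, Equiv.apply_symm_apply, Equiv.swap_apply_of_ne_of_ne h32.ne' h24.ne,
      Equiv.swap_apply_right]
  have e3 : f ((finRotate (n + 1)).symm k3) = k4 := by
    rw [fa, Equiv.apply_symm_apply, Equiv.swap_apply_left,
      Equiv.swap_apply_of_ne_of_ne h14.ne' h24.ne']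
  have e4 : f ((finRotate (n + 1)).symm k4) = k3 := by
    rw [fa, Equiv.apply_symm_apply, Equiv.swap_apply_right,
      Equiv.swap_apply_of_ne_of_ne h13.ne' h32.ne]
  have one : ∀ z, f.SameCycle z (f z) := fun z => ⟨1, by simp⟩
  have step : ∀ z, finRotate (n + 1) z ≠ k1 → finRotate (n + 1) z ≠ k2 →
      finRotate (n + 1) z ≠ k3 → finRotate (n + 1) z ≠ k4 →
      f.SameCycle z (finRotate (n + 1) z) := by
    intro z g1 g2 g3 g4
    have : f z = finRotate (n + 1) z := by
      rw [fa, Equiv.swap_apply_of_ne_of_ne g3 g4, Equiv.swap_apply_of_ne_of_ne g1 g2]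
    rw [← this]
    exact one z
  have seg : ∀ (d a : ℕ) (h : a + d < n + 1), (∀ c, a < c → c ≤ a + d →
      c ≠ k1.val ∧ c ≠ k2.val ∧ c ≠ k3.val ∧ c ≠ k4.val) →
      f.SameCycle ⟨a, by omega⟩ ⟨a + d, h⟩ := by
    intro d
    induction d with
    | zero => intro a h _; exact Equiv.Perm.SameCycle.refl _ _
    | succ d ih =>
      intro a h hc
      have h1 := ih a (by omega) (fun c g1 g2 => hc c g1 (by omega))
      refine h1.trans ?_
      have h2 := rot_val (n := n) (j := a + d) (by omega) (by omega)
      have h3 := hc (a + d + 1) (by omega) (by omega)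
      have h4 := step ⟨a + d, by omega⟩
      rw [h2] at h4
      apply h4 <;> (intro hh; rw [← hh] at h3; simp at h3)
  have seg' : ∀ (a b : Fin (n + 1)), a ≤ b → (∀ c : ℕ, a.val < c → c ≤ b.val →
      c ≠ k1.val ∧ c ≠ k2.val ∧ c ≠ k3.val ∧ c ≠ k4.val) → f.SameCycle a b := by
    intro a b hab hc
    have hab' : a.val ≤ b.val := hab
    have h1 := seg (b.val - a.val) a.val (by omega) (fun c g1 g2 => hc c g1 (by omega))
    have h2 : (⟨a.val + (b.val - a.val), by omega⟩ : Fin (n + 1)) = b := by
      apply Fin.ext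
      show a.val + (b.val - a.val) = b.val
      omega
    rw [h2] at h1
    exact h1
  have v13 : k1.val < k3.val := h13
  have v32 : k3.val < k2.val := h32
  have v24 : k2.val < k4.val := h24
  have pre : ∀ k : Fin (n + 1), 0 < k.val → ((finRotate (n + 1)).symm k).val = k.val - 1 := by
    intro k hk
    have h1 := rot_val (n := n) (j := k.val - 1) (by omega) (by omega)
    have h2 : (finRotate (n + 1)).symm k = ⟨k.val - 1, by omega⟩ := by
      rw [Equiv.symm_apply_eq, h1]
      apply Fin.ext
      show k.val = k.val - 1 + 1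
      omega
    rw [h2]
  have s14 : f.SameCycle k1 k4 := by
    have h1 := pre k3 (by omega)
    have h2 := seg' k1 ((finRotate (n + 1)).symm k3) (by
      show k1.val ≤ ((finRotate (n + 1)).symm k3).val; omega) (by intro c g1 g2; omega)
    have h3 := one ((finRotate (n + 1)).symm k3)
    rw [e3] at h3
    exact h2.trans h3
  have s31 : f.SameCycle k3 k1 := by
    have h1 := pre k2 (by omega)
    have h2 := seg' k3 ((finRotate (n + 1)).symm k2) (by
      show k3.val ≤ ((finRotate (n + 1)).symm k2).val; omega) (by intro c g1 g2; omega)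
    have h3 := one ((finRotate (n + 1)).symm k2)
    rw [e2] at h3
    exact h2.trans h3
  have s23 : f.SameCycle k2 k3 := by
    have h1 := pre k4 (by omega)
    have h2 := seg' k2 ((finRotate (n + 1)).symm k4) (by
      show k2.val ≤ ((finRotate (n + 1)).symm k4).val; omega) (by intro c g1 g2; omega)
    have h3 := one ((finRotate (n + 1)).symm k4)
    rw [e4] at h3
    exact h2.trans h3
  have all : ∀ z, f.SameCycle k1 z := by
    intro z
    by_cases c4 : k4.val ≤ z.val
    · exact s14.trans (seg' k4 z c4 (by intro c g1 g2; omega))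
    by_cases c2 : k2.val ≤ z.val
    · exact ((s23.trans s31).symm).trans (seg' k2 z c2 (by intro c g1 g2; omega))
    by_cases c3 : k3.val ≤ z.val
    · exact s31.symm.trans (seg' k3 z c3 (by intro c g1 g2; omega))
    by_cases c1 : k1.val ≤ z.val
    · exact seg' k1 z c1 (by intro c g1 g2; omega)
    have h1 : f.SameCycle k4 (Fin.last n) := seg' k4 (Fin.last n) (Fin.le_last _)
      (by intro c g1 g2; omega)
    have h2 : f.SameCycle (Fin.last n) 0 := by
      have h3 := step (Fin.last n)
      rw [finRotate_last] at h3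
      apply h3 <;> (intro hh; have h5 := congrArg Fin.val hh; rw [Fin.val_zero] at h5; omega)
    have h3 : f.SameCycle 0 z := seg' 0 z (Fin.zero_le _) (by
      intro c g1 g2; omega)
    exact s14.trans (h1.trans (h2.trans h3))
  exact (all x).symm.trans (all y)

theorem interlace_cycle (k1 k2 k3 k4 : Fin (n + 1)) (h : Alt k1 k2 k3 k4) (x y : Fin (n + 1)) :
    (Equiv.swap k1 k2 * Equiv.swap k3 k4 * finRotate (n + 1)).SameCycle x y := by
  -- reduce to `k1 < k2`
  have main : ∀ p q s t : Fin (n + 1), p < q → p < s → s < q → (t < p ∨ q < t) →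
      (Equiv.swap p q * Equiv.swap s t * finRotate (n + 1)).SameCycle x y := by
    intro p q s t hpq hps hsq ht
    rcases ht with ht | ht
    · have e : Equiv.swap p q * Equiv.swap s t = Equiv.swap t s * Equiv.swap p q := by
        rw [Equiv.swap_comm s t]
        apply Equiv.Perm.Disjoint.commute
        intro z
        by_cases hz : z = p ∨ z = q
        · right
          apply Equiv.swap_apply_of_ne_of_ne
          · rintro rfl; rcases hz with rfl | rfl
            · exact lt_irrefl _ ht
            · exact lt_irrefl _ (ht.trans hpq)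
          · rintro rfl; rcases hz with rfl | rfl
            · exact lt_irrefl _ hps
            · exact lt_irrefl _ hsq
        · left
          exact Equiv.swap_apply_of_ne_of_ne (fun h => hz (Or.inl h)) (fun h => hz (Or.inr h))
      rw [e]
      exact base_cycle t s p q ht hps hsq x y
    · exact base_cycle p q s t hps hsq ht x y
  have main2 : ∀ s t : Fin (n + 1), min k1 k2 < s → s < max k1 k2 →
      (t < min k1 k2 ∨ max k1 k2 < t) →
      (Equiv.swap k1 k2 * Equiv.swap s t * finRotate (n + 1)).SameCycle x y := by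
    intro s t h1 h2 h3
    rcases le_total k1 k2 with h12 | h12
    · rw [min_eq_left h12] at h1 h3
      rw [max_eq_right h12] at h2 h3
      exact main k1 k2 s t (h1.trans h2) h1 h2 h3
    · rw [min_eq_right h12] at h1 h3
      rw [max_eq_left h12] at h2 h3
      rw [Equiv.swap_comm k1 k2]
      exact main k2 k1 s t (h1.trans h2) h1 h2 h3
  rcases h with ⟨h1, h2, h3⟩ | ⟨h1, h2, h3⟩
  · exact main2 k3 k4 h1 h2 h3
  · rw [Equiv.swap_comm k3 k4]
    exact main2 k4 k3 h1 h2 h3

end RandomGrid
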