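import Pool.Agent.Helper86.Vass.Defs

/-!
# Grid diagrams as closed braids

A grid diagram of size `n + 1` of a knot is given by two permutations `c`, `r` of `Fin (n + 1)`: the
`k`-th vertical edge (`k` is taken modulo `n + 1`) lies in column `c k` and goes from row `r (k - 1)`
to row `r k`; the horizontal edge in row `r k` joins column `c k` to column `c (k + 1)`. Vertical
edges cross over horizontal edges.

The horizontal edges which go to the left are replaced by the complementary horizontal edges
(leaving to the right, below all vertical edges, and coming back from the left). This isotopy turns
the diagram into the closure of a braid, whose strands run from left to right and whose positions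
are the rows which carry a strand.
-/

namespace RandomGrid

open VassBraid


variable {α : Type*} [LinearOrder α]

/-- The number of elements of `P` below `y`. -/
def cnt (P : Finset α) (y : α) : ℕ := (P.filter fun z => z < y).card

/-- `σ_i σ_{i+1} ⋯ σ_{j-1}`: the strand in position `i` moves up to position `j`, over the others. -/
def up (i j : ℕ) : List (ℕ × Bool) := (List.range' i (j - i)).map fun k => (k, true)

/-- `σ_{j-1}⁻¹ ⋯ σ_i⁻¹`: the strand in position `j` moves down to position `i`, over the others. -/
def dn (j i : ℕ) : List (ℕ × Bool) := (List.range' i (j - i)).reverse.map fun k => (k, false)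

/-- The strand in position `p` moves to position `q`, over the others (one of the two words is
empty). -/
def slide (p q : ℕ) : List (ℕ × Bool) := up p q ++ dn p q

/-- The braid word of a sequence of vertical edges `(a, b)` (from row `a` to row `b`), read from left
to right; `P` is the set of the rows which carry a strand at the beginning. -/
def gridWord : List (α × α) → Finset α → List (ℕ × Bool)
  | [], _ => []
  | e :: L, P => slide (cnt (P.erase e.1) e.1) (cnt (P.erase e.1) e.2) ++
      gridWord L (insert e.2 (P.erase e.1))

/-- A word in `σ_i`, `i < m`, as an element of `Word m` (`m + 1` strands). -/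
def toWord (m : ℕ) (w : List (ℕ × Bool)) : Word m :=
  w.filterMap fun l => if h : l.1 < m then some (⟨l.1, h⟩, l.2) else none


variable {n : ℕ}

/-- The vertical edge in column `x`: its start row and its end row. -/
def edge (c r : Equiv.Perm (Fin (n + 1))) (x : Fin (n + 1)) : Fin (n + 1) × Fin (n + 1) :=
  (r (c.symm x - 1), r (c.symm x))

/-- The vertical edges, from left to right. -/
def moves (c r : Equiv.Perm (Fin (n + 1))) : List (Fin (n + 1) × Fin (n + 1)) :=
  (List.finRange (n + 1)).map (edge c r)

/-- The rows whose horizontal edge goes to the left. -/
def wrap (c r : Equiv.Perm (Fin (n + 1))) : Finset (Fin (n + 1)) :=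
  Finset.univ.filter fun y => c (r.symm y + 1) < c (r.symm y)

/-- The knot of the grid diagram `(c, r)`, as a closed braid. -/
def gridKnot (c r : Equiv.Perm (Fin (n + 1))) : CBraid :=
  ⟨(wrap c r).card - 1, toWord _ (gridWord (moves c r) (wrap c r))⟩

end RandomGrid
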