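import Pool.Agent.Helper46.Grid.Defs
import Pool.Agent.Helper86.Vass.Shadow

/-!
# Internal definitions
-/

namespace RandomGrid

open VassBraid Finset Function

/-- equality of braid words in every context, up to Markov equivalence -/
def BEq {m : ℕ} (w w' : Word m) : Prop :=
  ∀ u v : Word m, MarkovEq ⟨m, u ++ w ++ v⟩ ⟨m, u ++ w' ++ v⟩

/-- a word with signs as a word without free crossings -/
def inS {m : ℕ} (w : Word m) : SWord m := w.map fun x => (x.1, some x.2)

/-- a word in natural numbers, with free crossings, as an element of `SWord m` -/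
def toS (m : ℕ) (w : List (ℕ × Option Bool)) : SWord m :=
  w.filterMap fun l => if h : l.1 < m then some (⟨l.1, h⟩, l.2) else none

/-- the common form of the two orders of an interleaved pair -/
def free (i j k l : ℕ) : List (ℕ × Option Bool) :=
  (dn (l + 1) (k + 1) ++ up i k).map (fun x => (x.1, some x.2)) ++
    (k, none) :: (dn k j).map (fun x => (x.1, some x.2))


variable {α : Type*} [LinearOrder α]

/-- the set of occupied rows after the moves -/
def endSet : List (α × α) → Finset α → Finset α
  | [], P => P
  | e :: L, P => endSet L (insert e.2 (P.erase e.1))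

/-- every move starts in an occupied row and ends in a free row -/
def Valid : List (α × α) → Finset α → Prop
  | [], _ => True
  | e :: L, P => e.1 ∈ P ∧ e.2 ∉ P ∧ Valid L (insert e.2 (P.erase e.1))

/-- one move -/
def mv (e : α × α) (y : α) : α := if y = e.1 then e.2 else y

/-- the motion of the rows under a sequence of moves -/
def flowFn : List (α × α) → α → α
  | [], y => y
  | e :: L, y => flowFn L (mv e y)

/-- The word `w` moves the strands in the rows `P` to the rows `P'` by the map `φ`. (Positions are
counted from below; `perm w` maps final positions to initial positions.) -/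
def Flow {m : ℕ} {β : Type*} (w : List (Fin m × β)) (P P' : Finset α) (φ : α → α) : Prop :=
  P.card = m + 1 ∧ P'.card = m + 1 ∧ (∀ y ∈ P, φ y ∈ P') ∧
    ∀ y ∈ P, ∀ z : Fin (m + 1), (z : ℕ) = cnt P' (φ y) →
      ((perm w z : Fin (m + 1)) : ℕ) = cnt P y

/-- the edge `u` goes up, the edge `v` goes down, and they are interleaved in this way -/
def TI (u v : α × α) : Prop := u.1 < v.2 ∧ v.2 < u.2 ∧ u.2 < v.1

instance (u v : α × α) : Decidable (TI u v) := by unfold TI; infer_instance

/-- A pair of neighbouring columns, with a name if it is a free pair. -/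
abbrev Pair (α : Type*) := Option ℕ × (α × α) × (α × α)

/-- the names of the free pairs -/
def names (L : List (Pair α)) : List ℕ := L.filterMap fun x => x.1

/-- all moves, in the given order -/
def plain (L : List (Pair α)) : List (α × α) := L.flatMap fun x => [x.2.1, x.2.2]

/-- the moves after exchanging the free pairs whose names satisfy `b` -/
def tog (L : List (Pair α)) (b : ℕ → Bool) : List (α × α) :=
  L.flatMap fun x => match x.1 with
    | none => [x.2.1, x.2.2]
    | some j => if b j then [x.2.2, x.2.1] else [x.2.1, x.2.2]

/-- the moves after smoothing the free pairs whose names satisfy `b` -/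
def smo (L : List (Pair α)) (b : ℕ → Bool) : List (α × α) :=
  L.flatMap fun x => match x.1 with
    | none => [x.2.1, x.2.2]
    | some j => if b j then [(x.2.1.1, x.2.2.2), (x.2.2.1, x.2.1.2)] else [x.2.1, x.2.2]

/-- the singular closed braid with one free crossing for every free pair; `T` are the remaining
moves -/
def tmpl (m : ℕ) : List (Pair α) → List (α × α) → Finset α → SWord m
  | [], T, P => inS (toWord m (gridWord T P))
  | (none, u, v) :: L, T, P => inS (toWord m (gridWord [u, v] P)) ++ tmpl m L T (endSet [u, v] P)
  | (some _, u, v) :: L, T, P =>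
      toS m (free (cnt ((P.erase u.1).erase v.1) u.1) (cnt ((P.erase u.1).erase v.1) v.2)
        (cnt ((P.erase u.1).erase v.1) u.2) (cnt ((P.erase u.1).erase v.1) v.1)) ++
      tmpl m L T (endSet [u, v] P)

/-- all free pairs are interleaved as in `TI` -/
def AllTI (L : List (Pair α)) : Prop := ∀ x ∈ L, x.1 ≠ none → TI x.2.1 x.2.2


variable {n : ℕ}

/-- `{p, q}` and `{s, t}` alternate on the circle -/
def Alt (p q s t : Fin (n + 1)) : Prop :=
  (min p q < s ∧ s < max p q ∧ (t < min p q ∨ max p q < t)) ∨
  (min p q < t ∧ t < max p q ∧ (s < min p q ∨ max p q < s))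

/-- the column with number `j` -/
def col (n j : ℕ) : Fin (n + 1) := Fin.ofNat (n + 1) j

/-- exchange the columns `2 j` and `2 j + 1`, for `j ∈ s` (only if `2 j + 1 ≤ n`) -/
def twFn (n : ℕ) (s : Finset ℕ) (x : Fin (n + 1)) : Fin (n + 1) :=
  if (x : ℕ) / 2 ∈ s then
    (if (x : ℕ) % 2 = 0 then (if (x : ℕ) + 1 ≤ n then col n (x + 1) else x) else col n (x - 1))
  else x

/-- block `i` (columns `4 i, …, 4 i + 3`) is good for `c`: the two pairs of visiting times
alternate -/
def AltBlock (c : Equiv.Perm (Fin (n + 1))) (i : ℕ) : Prop :=
  Alt (c.symm (col n (4 * i))) (c.symm (col n (4 * i + 1)))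
    (c.symm (col n (4 * i + 2))) (c.symm (col n (4 * i + 3)))

/-- `TI` in one of the two orders -/
def TIs {α : Type*} [LinearOrder α] (u v : α × α) : Prop := TI u v ∨ TI v u

/-- a good block: the two pairs of columns are interleaved and alternate along the knot -/
def Good (c r : Equiv.Perm (Fin (n + 1))) (i : ℕ) : Prop :=
  AltBlock c i ∧ TIs (edge c r (col n (4 * i))) (edge c r (col n (4 * i + 1))) ∧
    TIs (edge c r (col n (4 * i + 2))) (edge c r (col n (4 * i + 3)))

open Classical in
/-- the set of the good blocks -/
noncomputable def goods (c r : Equiv.Perm (Fin (n + 1))) : Finset ℕ :=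
  (range ((n + 1) / 4)).filter fun i => Good c r i

/-- the pairs of columns in the blocks of `G` (pair `j` = columns `2 j`, `2 j + 1`) -/
def pairsOf (G : Finset ℕ) : Finset ℕ := G.biUnion fun i => {2 * i, 2 * i + 1}

/-- the list of pairs for the set `J` of free pairs; the columns from `4 ((n + 1) / 4)` on are left
out -/
def PL (c r : Equiv.Perm (Fin (n + 1))) (J : Finset ℕ) : List (Pair (Fin (n + 1))) :=
  (List.range (2 * ((n + 1) / 4))).map fun j =>
    (if j ∈ J then some j else none, edge c r (col n (2 * j)), edge c r (col n (2 * j + 1)))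

/-- the remaining edges -/
def tailL (c r : Equiv.Perm (Fin (n + 1))) : List (Fin (n + 1) × Fin (n + 1)) :=
  (List.range' (4 * ((n + 1) / 4)) (n + 1 - 4 * ((n + 1) / 4))).map fun j => edge c r (col n j)

end RandomGrid
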