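import Pool.Agent.Helper46.Grid.Pattern
import Pool.Agent.Helper46.Grid.Blocks

namespace RandomGrid

open VassBraid Finset Function

variable {n : ℕ}

lemma few_col_inj {a b : ℕ} (ha : a < n + 1) (hb : b < n + 1) (h : col n a = col n b) : a = b := by
  have := congrArg Fin.val h
  simpa [col, Fin.ofNat, Nat.mod_eq_of_lt ha, Nat.mod_eq_of_lt hb] using this

lemma few_exists_sort {k m : ℕ} (v : Fin k → Fin m) (hv : Injective v) :
    ∃ τ : Equiv.Perm (Fin k), StrictMono (v ∘ τ) :=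
  ⟨Tuple.sort v, (Tuple.monotone_sort v).strictMono_of_injective (hv.comp (Equiv.injective _))⟩

lemma few_card_fin (N : ℕ) (P : ℕ → Prop) [DecidablePred P] :
    ((range N).filter fun i => P i).card = (univ.filter fun i : Fin N => P i).card := by
  rw [card_filter, card_filter, Fin.sum_univ_eq_sum_range (fun i => if P i then 1 else 0)]

open Classical in
/-- few permutations have few alternating blocks -/
theorem few_alt : ∃ ε ρ : ℝ, 0 < ε ∧ 0 < ρ ∧ ρ < 1 ∧ ∀ n : ℕ,
    ((univ.filter fun c : Equiv.Perm (Fin (n + 1)) =>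
        ((((range ((n + 1) / 4)).filter fun i => AltBlock c i).card : ℕ) : ℝ)
          < ε * ((n + 1) / 4 : ℕ)).card : ℝ) ≤ ρ ^ ((n + 1) / 4) * ((n + 1).factorial : ℝ) := by
  obtain ⟨ε, ρ, hε, hρ, hρ1, h⟩ := pattern 4
  refine ⟨ε, ρ, hε, hρ, hρ1, fun n => ?_⟩
  have hlt : ∀ (i : Fin ((n + 1) / 4)) (t : Fin 4), 4 * (i : ℕ) + t < n + 1 := by
    intro i t; omega
  have hw : Injective (fun x : Fin ((n + 1) / 4) × Fin 4 => col n (4 * x.1 + x.2)) := by
    rintro ⟨i, t⟩ ⟨i', t'⟩ hh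
    have := few_col_inj (hlt i t) (hlt i' t') hh
    have : (i : ℕ) = i' ∧ (t : ℕ) = t' := by omega
    exact Prod.ext (Fin.ext this.1) (Fin.ext this.2)
  have h1 := h n ((n + 1) / 4) (fun x => col n (4 * x.1 + x.2)) hw
    (fun _ v => Alt (v 0) (v 1) (v 2) (v 3)) (by
    intro i v hv
    obtain ⟨τ, hτ⟩ := few_exists_sort v hv
    have h01 : v (τ 0) < v (τ 1) := hτ (by decide)
    have h12 : v (τ 1) < v (τ 2) := hτ (by decide)
    have h23 : v (τ 2) < v (τ 3) := hτ (by decide)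
    refine ⟨τ * Equiv.swap 1 2, ?_⟩
    have e0 : (Equiv.swap (1 : Fin 4) 2) 0 = 0 := by decide
    have e1 : (Equiv.swap (1 : Fin 4) 2) 1 = 2 := by decide
    have e2 : (Equiv.swap (1 : Fin 4) 2) 2 = 1 := by decide
    have e3 : (Equiv.swap (1 : Fin 4) 2) 3 = 3 := by decide
    simp only [Function.comp, Equiv.Perm.mul_apply, e0, e1, e2, e3]
    left
    rw [min_eq_left (h01.trans h12).le, max_eq_right (h01.trans h12).le]
    exact ⟨h01, h12, Or.inr h23⟩)
  refine le_trans (Nat.cast_le.mpr (card_le_card_of_injOn (fun c => c.symm) ?_ ?_)) h1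
  · intro c hc
    rw [mem_coe, mem_filter] at hc ⊢
    refine ⟨mem_univ _, lt_of_le_of_lt (le_of_eq ?_) hc.2⟩
    rw [few_card_fin]
    congr 2
  · intro c _ c' _ hcc
    have := congrArg Equiv.symm hcc
    simpa using this

open Classical in
/-- for given `c` and given blocks with disjoint positions few `r` have few interleaved pairs -/
theorem few_int : ∃ ε ρ : ℝ, 0 < ε ∧ 0 < ρ ∧ ρ < 1 ∧ ∀ (n : ℕ) (c : Equiv.Perm (Fin (n + 1)))
    (F : Finset ℕ)
    (_ : ∀ i ∈ F, ∀ i' ∈ F, ∀ t < 8, ∀ t' < 8, pos c i t = pos c i' t' → i = i' ∧ t = t'),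
    ((univ.filter fun r : Equiv.Perm (Fin (n + 1)) =>
        (((F.filter fun i => TIs (edge c r (col n (4 * i))) (edge c r (col n (4 * i + 1))) ∧
          TIs (edge c r (col n (4 * i + 2))) (edge c r (col n (4 * i + 3)))).card : ℕ) : ℝ)
          < ε * F.card).card : ℝ) ≤ ρ ^ F.card * ((n + 1).factorial : ℝ) := by
  obtain ⟨ε, ρ, hε, hρ, hρ1, h⟩ := pattern 8
  refine ⟨ε, ρ, hε, hρ, hρ1, fun n c F hF => ?_⟩
  let g : Fin F.card ≃ F := F.equivFin.symm
  have hw : Injective (fun x : Fin F.card × Fin 8 => pos c (g x.1) x.2) := by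
    rintro ⟨i, t⟩ ⟨i', t'⟩ hh
    have := hF _ (g i).2 _ (g i').2 t t.2 t' t'.2 hh
    exact Prod.ext (g.injective (Subtype.ext this.1)) (Fin.ext this.2)
  have h1 := h n F.card (fun x => pos c (g x.1) x.2) hw
    (fun _ v => TIs (v 0, v 1) (v 2, v 3) ∧ TIs (v 4, v 5) (v 6, v 7)) (by
    intro i v hv
    obtain ⟨τ, hτ⟩ := few_exists_sort v hv
    have h01 : v (τ 0) < v (τ 1) := hτ (by decide)
    have h12 : v (τ 1) < v (τ 2) := hτ (by decide)
    have h23 : v (τ 2) < v (τ 3) := hτ (by decide)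
    have h45 : v (τ 4) < v (τ 5) := hτ (by decide)
    have h56 : v (τ 5) < v (τ 6) := hτ (by decide)
    have h67 : v (τ 6) < v (τ 7) := hτ (by decide)
    obtain ⟨σ, e0, e1, e2, e3, e4, e5, e6, e7⟩ : ∃ σ : Equiv.Perm (Fin 8), σ 0 = 0 ∧ σ 1 = 2 ∧
        σ 2 = 3 ∧ σ 3 = 1 ∧ σ 4 = 4 ∧ σ 5 = 6 ∧ σ 6 = 7 ∧ σ 7 = 5 :=
      ⟨Equiv.swap 1 2 * Equiv.swap 2 3 * (Equiv.swap 5 6 * Equiv.swap 6 7), by decide⟩
    refine ⟨τ * σ, ?_⟩
    simp only [Function.comp, Equiv.Perm.mul_apply, e0, e1, e2, e3, e4, e5, e6, e7]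
    exact ⟨Or.inl ⟨h01, h12, h23⟩, Or.inl ⟨h45, h56, h67⟩⟩)
  refine le_trans (Nat.cast_le.mpr (card_le_card ?_)) h1
  intro r hr
  simp only [mem_filter, mem_univ, true_and] at hr ⊢
  refine lt_of_le_of_lt ?_ hr
  rw [Nat.cast_le]
  refine card_le_card_of_injOn (fun i => (g i : ℕ)) ?_ ?_
  · intro i hi
    rw [mem_coe, mem_filter] at hi ⊢
    refine ⟨(g i).2, ?_⟩
    simpa [pos, edge] using hi.2
  · intro i _ j _ hij
    exact g.injective (Subtype.ext hij)

lemma few_mul_pow {ρ : ℝ} (h0 : 0 < ρ) (h1 : ρ < 1) (B : ℕ) : (B : ℝ) * ρ ^ B ≤ 1 / (1 - ρ) := by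
  have hs : ∑ k ∈ range B, ρ ^ k = (1 - ρ ^ B) / (1 - ρ) := by
    rw [geom_sum_eq h1.ne, ← neg_div_neg_eq]; ring
  have h2 : (B : ℝ) * ρ ^ B ≤ ∑ k ∈ range B, ρ ^ k := by
    rw [← nsmul_eq_mul]
    have := card_nsmul_le_sum (range B) (fun k => ρ ^ k) (ρ ^ B) (fun k hk =>
      pow_le_pow_of_le_one h0.le h1.le (mem_range.mp hk).le)
    simpa using this
  have h3 : 0 < 1 - ρ := by linarith
  refine h2.trans ?_
  rw [hs]
  gcongr
  have := pow_pos h0 B
  linarith

open Classical in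
theorem few_good : ∃ δ C : ℝ, 0 < δ ∧ 0 < C ∧ ∀ n : ℕ, 1 ≤ n →
    ((univ.filter fun x : Equiv.Perm (Fin (n + 1)) × Equiv.Perm (Fin (n + 1)) =>
        ((goods x.1 x.2).card : ℝ) < δ * (n + 1)).card : ℝ)
      ≤ C / ((n : ℝ) + 1) ^ (1 / 8 : ℝ) * ((n + 1).factorial : ℝ) ^ 2 := by
  obtain ⟨ε₄, ρ₄, hε₄, hρ₄, hρ₄1, h4⟩ := few_alt
  obtain ⟨ε₈, ρ₈, hε₈, hρ₈, hρ₈1, h8⟩ := few_int
  have hr4 : 0 < 1 - ρ₄ := by linarith
  have hr8 : 0 < 1 - ρ₈ := by linarith
  set K : ℝ := 1 / (1 - ρ₄) + 12 / ε₄ + 18 / ε₄ * (1 / (1 - ρ₈)) with hK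
  have hKpos : 0 < K := by positivity
  refine ⟨ε₈ * ε₄ / 144, 8 * K + 3, by positivity, by positivity, fun n hn => ?_⟩
  have hn0 : (0 : ℝ) ≤ n := Nat.cast_nonneg n
  have hn1 : (1 : ℝ) ≤ (n : ℝ) + 1 := by linarith
  have hcard : (Fintype.card (Equiv.Perm (Fin (n + 1))) : ℝ) = ((n + 1).factorial : ℝ) := by
    rw [Fintype.card_perm, Fintype.card_fin]
  have hfac : (0 : ℝ) < ((n + 1).factorial : ℝ) := by exact_mod_cast Nat.factorial_pos _
  have hpow : ((n : ℝ) + 1) ^ (1 / 8 : ℝ) ≤ (n : ℝ) + 1 := by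
    calc ((n : ℝ) + 1) ^ (1 / 8 : ℝ) ≤ ((n : ℝ) + 1) ^ (1 : ℝ) :=
          Real.rpow_le_rpow_of_exponent_le hn1 (by norm_num)
      _ = _ := Real.rpow_one _
  have hpowpos : 0 < ((n : ℝ) + 1) ^ (1 / 8 : ℝ) := by positivity
  set X := (univ.filter fun x : Equiv.Perm (Fin (n + 1)) × Equiv.Perm (Fin (n + 1)) =>
        ((goods x.1 x.2).card : ℝ) < ε₈ * ε₄ / 144 * (n + 1)) with hX
  by_cases hB : (n + 1) / 4 = 0
  · -- small n
    have h5 : ((n : ℝ) + 1) ≤ 3 := by
      have : n + 1 ≤ 3 := by omega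
      exact_mod_cast this
    have h6 : (X.card : ℝ) ≤ ((n + 1).factorial : ℝ) ^ 2 := by
      have : X.card ≤ Fintype.card (Equiv.Perm (Fin (n + 1)) × Equiv.Perm (Fin (n + 1))) :=
        card_le_univ _
      rw [Fintype.card_prod] at this
      have h7 : (X.card : ℝ) ≤ (Fintype.card (Equiv.Perm (Fin (n + 1))) : ℝ) *
        (Fintype.card (Equiv.Perm (Fin (n + 1))) : ℝ) := by exact_mod_cast this
      rw [hcard] at h7
      nlinarith
    refine h6.trans ?_
    have h8 : 1 ≤ (8 * K + 3) / ((n : ℝ) + 1) ^ (1 / 8 : ℝ) := by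
      rw [le_div_iff₀ hpowpos]
      nlinarith
    nlinarith [sq_nonneg ((n + 1).factorial : ℝ), pow_pos hfac 2]
  · -- large n
    set B := (n + 1) / 4 with hBdef
    have hB1 : 1 ≤ B := Nat.one_le_iff_ne_zero.mpr hB
    have hBpos : (0 : ℝ) < B := by exact_mod_cast hB1
    have hB8 : ((n : ℝ) + 1) ≤ 8 * B := by
      have : n + 1 ≤ 8 * B := by omega
      exact_mod_cast this
    -- bad c
    set Z1 := univ.filter fun c : Equiv.Perm (Fin (n + 1)) =>
        ((((range B).filter fun i => AltBlock c i).card : ℕ) : ℝ) < ε₄ * (B : ℕ) with hZ1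
    set Z2 := univ.filter fun c : Equiv.Perm (Fin (n + 1)) => ε₄ * B / 2 ≤ (adj c : ℝ) with hZ2
    have hZ1c : (Z1.card : ℝ) ≤ 1 / (1 - ρ₄) / B * ((n + 1).factorial : ℝ) := by
      refine (h4 n).trans ?_
      gcongr
      rw [le_div_iff₀ hBpos, mul_comm]
      exact few_mul_pow hρ₄ hρ₄1 B
    have hZ2c : (Z2.card : ℝ) ≤ 12 / ε₄ / B * ((n + 1).factorial : ℝ) := by
      have h5 : (Z2.card : ℝ) * (ε₄ * B / 2) ≤ 6 * ((n + 1).factorial : ℝ) := by
        calc (Z2.card : ℝ) * (ε₄ * B / 2) ≤ ∑ c ∈ Z2, (adj c : ℝ) := by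
              rw [← nsmul_eq_mul]
              exact card_nsmul_le_sum _ _ _ (fun c hc => (mem_filter.mp hc).2)
          _ ≤ ∑ c : Equiv.Perm (Fin (n + 1)), (adj c : ℝ) :=
              sum_le_sum_of_subset_of_nonneg (subset_univ _) (fun _ _ _ => Nat.cast_nonneg _)
          _ ≤ 6 * ((n + 1).factorial : ℝ) := by exact_mod_cast adj_sum hn
      have h6 : 12 / ε₄ / B * ((n + 1).factorial : ℝ)
          = 6 * ((n + 1).factorial : ℝ) / (ε₄ * B / 2) := by
        field_simp; ring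
      rw [h6, le_div_iff₀ (by positivity)]
      exact h5
    -- the fibre over a good c
    have hfib : ∀ c, c ∉ Z1 ∪ Z2 →
        ((univ.filter fun r : Equiv.Perm (Fin (n + 1)) => (c, r) ∈ X).card : ℝ)
          ≤ 18 / ε₄ * (1 / (1 - ρ₈)) / B * ((n + 1).factorial : ℝ) := by
      intro c hc
      rw [mem_union, not_or] at hc
      have hc1 : ε₄ * B ≤ ((((range B).filter fun i => AltBlock c i).card : ℕ) : ℝ) := by
        by_contra hcon
        exact hc.1 (mem_filter.mpr ⟨mem_univ _, not_le.mp hcon⟩)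
      have hc2 : (adj c : ℝ) < ε₄ * B / 2 := by
        by_contra hcon
        exact hc.2 (mem_filter.mpr ⟨mem_univ _, not_lt.mp hcon⟩)
      obtain ⟨F, hFV, hF1, hF2⟩ := choose_blocks hn c ((range B).filter fun i => AltBlock c i)
        (fun i hi => mem_range.mp (mem_filter.mp hi).1)
      have hF3 : ((((range B).filter fun i => AltBlock c i).card : ℕ) : ℝ)
          ≤ 9 * F.card + adj c := by exact_mod_cast hF1
      have hF4 : ε₄ * B / 18 ≤ F.card := by linarith
      have hFpos : (0 : ℝ) < F.card := lt_of_lt_of_le (by positivity) hF4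
      have h9 := h8 n c F hF2
      have h10 : ((univ.filter fun r : Equiv.Perm (Fin (n + 1)) => (c, r) ∈ X).card : ℝ)
          ≤ ρ₈ ^ F.card * ((n + 1).factorial : ℝ) := by
        refine le_trans (Nat.cast_le.mpr (card_le_card ?_)) h9
        intro r hr
        simp only [mem_filter, mem_univ, true_and, hX] at hr ⊢
        have hsub : (F.filter fun i => TIs (edge c r (col n (4 * i))) (edge c r (col n (4 * i + 1)))
            ∧ TIs (edge c r (col n (4 * i + 2))) (edge c r (col n (4 * i + 3)))) ⊆ goods c r := by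
          intro i hi
          rw [mem_filter] at hi
          have hiV := mem_filter.mp (hFV hi.1)
          rw [goods, mem_filter]
          exact ⟨hiV.1, hiV.2, hi.2⟩
        have hle := Nat.cast_le (α := ℝ).mpr (card_le_card hsub)
        refine lt_of_le_of_lt hle (lt_of_lt_of_le hr ?_)
        calc ε₈ * ε₄ / 144 * ((n : ℝ) + 1) ≤ ε₈ * ε₄ / 144 * (8 * B) := by gcongr
          _ = ε₈ * (ε₄ * B / 18) := by ring
          _ ≤ ε₈ * F.card := by gcongr
      refine h10.trans ?_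
      gcongr
      have h11 : ρ₈ ^ F.card ≤ 1 / (1 - ρ₈) / F.card := by
        rw [le_div_iff₀ hFpos, mul_comm]
        exact few_mul_pow hρ₈ hρ₈1 _
      refine h11.trans ?_
      calc 1 / (1 - ρ₈) / (F.card : ℝ) ≤ 1 / (1 - ρ₈) / (ε₄ * B / 18) := by gcongr
        _ = 18 / ε₄ * (1 / (1 - ρ₈)) / B := by field_simp
    -- sum over c
    have hXsum : (X.card : ℝ) = ∑ c : Equiv.Perm (Fin (n + 1)),
        ((univ.filter fun r : Equiv.Perm (Fin (n + 1)) => (c, r) ∈ X).card : ℝ) := by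
      have : X.card = ∑ c : Equiv.Perm (Fin (n + 1)),
          (univ.filter fun r : Equiv.Perm (Fin (n + 1)) => (c, r) ∈ X).card := by
        have h5 : X = univ.filter fun x => x ∈ X := by ext x; simp
        conv_lhs => rw [h5]
        simp only [card_filter]
        rw [Fintype.sum_prod_type]
      rw [this]; push_cast; rfl
    have hbound : ∀ c : Equiv.Perm (Fin (n + 1)),
        ((univ.filter fun r : Equiv.Perm (Fin (n + 1)) => (c, r) ∈ X).card : ℝ)
          ≤ (if c ∈ Z1 then ((n + 1).factorial : ℝ) else 0)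
            + (if c ∈ Z2 then ((n + 1).factorial : ℝ) else 0)
            + 18 / ε₄ * (1 / (1 - ρ₈)) / B * ((n + 1).factorial : ℝ) := by
      intro c
      have hpos : 0 ≤ 18 / ε₄ * (1 / (1 - ρ₈)) / B * ((n + 1).factorial : ℝ) := by positivity
      have hall : ((univ.filter fun r : Equiv.Perm (Fin (n + 1)) => (c, r) ∈ X).card : ℝ)
          ≤ ((n + 1).factorial : ℝ) := by
        rw [← hcard]
        exact_mod_cast card_le_univ _
      by_cases h1 : c ∈ Z1
      · rw [if_pos h1]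
        have : (0 : ℝ) ≤ (if c ∈ Z2 then ((n + 1).factorial : ℝ) else 0) := by
          split_ifs <;> positivity
        linarith
      · by_cases h2 : c ∈ Z2
        · rw [if_neg h1, if_pos h2]; linarith
        · rw [if_neg h1, if_neg h2]
          have := hfib c (by rw [mem_union, not_or]; exact ⟨h1, h2⟩)
          linarith
    have hsum : (X.card : ℝ) ≤ K / B * ((n + 1).factorial : ℝ) ^ 2 := by
      rw [hXsum]
      refine (sum_le_sum fun c _ => hbound c).trans ?_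
      rw [sum_add_distrib, sum_add_distrib]
      simp only [sum_ite_mem, univ_inter, sum_const, nsmul_eq_mul, card_univ]
      rw [hcard]
      have e1 : (Z1.card : ℝ) * ((n + 1).factorial : ℝ)
          ≤ 1 / (1 - ρ₄) / B * ((n + 1).factorial : ℝ) * ((n + 1).factorial : ℝ) := by
        gcongr
      have e2 : (Z2.card : ℝ) * ((n + 1).factorial : ℝ)
          ≤ 12 / ε₄ / B * ((n + 1).factorial : ℝ) * ((n + 1).factorial : ℝ) := by
        gcongr
      have e3 : K / B * ((n + 1).factorial : ℝ) ^ 2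
          = 1 / (1 - ρ₄) / B * ((n + 1).factorial : ℝ) * ((n + 1).factorial : ℝ)
            + 12 / ε₄ / B * ((n + 1).factorial : ℝ) * ((n + 1).factorial : ℝ)
            + ((n + 1).factorial : ℝ) *
              (18 / ε₄ * (1 / (1 - ρ₈)) / B * ((n + 1).factorial : ℝ)) := by
        rw [hK]; ring
      rw [e3]
      linarith
    refine hsum.trans (mul_le_mul_of_nonneg_right ?_ (by positivity))
    rw [div_le_div_iff₀ hBpos hpowpos]
    calc K * ((n : ℝ) + 1) ^ (1 / 8 : ℝ) ≤ K * ((n : ℝ) + 1) := by gcongr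
      _ ≤ K * (8 * B) := by gcongr
      _ ≤ (8 * K + 3) * B := by nlinarith

end RandomGrid
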