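import Pool.Agent.Helper46.Grid.Avg
import Pool.Agent.Helper46.Grid.Few

namespace RandomGrid

open VassBraid Finset Function

variable {n : ℕ}

theorem main : ∃ C : ℝ, ∀ (n : ℕ) (K : CBraid), 1 ≤ n →
    (({x : Equiv.Perm (Fin (n + 1)) × Equiv.Perm (Fin (n + 1)) |
        SameUpTo 2 (gridKnot x.1 x.2) K}.ncard : ℕ) : ℝ)
      ≤ C / ((n : ℝ) + 1) ^ (1 / 8 : ℝ) * ((n + 1).factorial : ℝ) ^ 2 := by
  classical
  obtain ⟨δ, C, hδ, hC, hfew⟩ := few_good
  refine ⟨C + 5 / 2 / δ ^ (1 / 8 : ℝ), fun n K hn => ?_⟩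
  have h1 := hfew n hn
  have hpos : (0 : ℝ) < (n : ℝ) + 1 := by positivity
  have h2 := avg_bound (n := n) hn (δ * (n + 1)) (by positivity) (f2 K)
  have hsub : {x : Equiv.Perm (Fin (n + 1)) × Equiv.Perm (Fin (n + 1)) |
      SameUpTo 2 (gridKnot x.1 x.2) K} ⊆
      (((univ.filter fun x : Equiv.Perm (Fin (n + 1)) × Equiv.Perm (Fin (n + 1)) =>
        ((goods x.1 x.2).card : ℝ) < δ * (n + 1)) ∪
      (univ.filter fun x : Equiv.Perm (Fin (n + 1)) × Equiv.Perm (Fin (n + 1)) =>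
        δ * (n + 1) ≤ ((goods x.1 x.2).card : ℝ) ∧ f2 (gridKnot x.1 x.2) = f2 K) : Finset _) :
        Set (Equiv.Perm (Fin (n + 1)) × Equiv.Perm (Fin (n + 1)))) := by
    intro x hx
    rw [mem_coe, mem_union, mem_filter, mem_filter]
    rcases lt_or_ge ((goods x.1 x.2).card : ℝ) (δ * (n + 1)) with h | h
    · exact Or.inl ⟨mem_univ _, h⟩
    · exact Or.inr ⟨mem_univ _, h, hx f2 f2_vassiliev⟩
  have h3 := Set.ncard_le_ncard hsub (Finset.finite_toSet _)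
  rw [Set.ncard_coe_finset] at h3
  have h4 := h3.trans (card_union_le _ _)
  have h5 := (Nat.cast_le (α := ℝ)).2 h4
  rw [Nat.cast_add] at h5
  refine h5.trans ((add_le_add h1 h2).trans (le_of_eq ?_))
  rw [Real.mul_rpow hδ.le hpos.le, ← add_mul, add_div, div_div (5 / 2 : ℝ)]

end RandomGrid
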