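import Pool.Agent.Helper46.Grid.Defs2

/-!
# The motion of the strands of a grid diagram
-/

namespace RandomGrid

open VassBraid Finset Function

variable {α : Type*} [LinearOrder α] {m : ℕ}

theorem Flow.comp {β : Type*} {w w' : List (Fin m × β)} {P P' P'' : Finset α} {φ ψ : α → α}
    (h : Flow w P P' φ) (h' : Flow w' P' P'' ψ) : Flow (w ++ w') P P'' (fun y => ψ (φ y)) := by
  refine ⟨h.1, h'.2.1, fun y hy => h'.2.2.1 _ (h.2.2.1 y hy), fun y hy z hz => ?_⟩
  rw [perm_append, Equiv.Perm.mul_apply]
  exact h.2.2.2 y hy _ (h'.2.2.2 _ (h.2.2.1 y hy) z hz)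

/-- `Flow` only depends on the permutation and on the values of `φ` on `P`. -/
theorem Flow.congr {β γ : Type*} {w : List (Fin m × β)} {w' : List (Fin m × γ)} {P P' : Finset α}
    {φ ψ : α → α} (h : Flow w P P' φ) (hw : perm w = perm w') (hφ : ∀ y ∈ P, φ y = ψ y) :
    Flow w' P P' ψ := by
  refine ⟨h.1, h.2.1, fun y hy => hφ y hy ▸ h.2.2.1 y hy, fun y hy z hz => ?_⟩
  rw [← hw]
  exact h.2.2.2 y hy z (by rw [hφ y hy]; exact hz)

theorem card_move {P : Finset α} {a b : α} (ha : a ∈ P) (hb : b ∉ P) :
    (insert b (P.erase a)).card = P.card := by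
  rw [card_insert_of_notMem (fun h => hb (mem_of_mem_erase h)), card_erase_add_one ha]

theorem cnt_lt {P : Finset α} (hP : P.card = m + 1) {y : α} (hy : y ∈ P) : cnt P y < m + 1 := by
  rw [← hP]
  apply card_lt_card
  refine ⟨filter_subset _ _, fun h => ?_⟩
  have := h hy
  simp at this

private lemma perm_nil' {β : Type*} : perm ([] : List (Fin m × β)) = 1 := by simp [perm]

private lemma perm_cons' {β : Type*} (l : Fin m × β) (w : List (Fin m × β)) :
    perm (l :: w) = tr l.1 * perm w := by simp [perm]

private lemma toWord_append (u v : List (ℕ × Bool)) : toWord m (u ++ v) = toWord m u ++ toWord m v := by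
  simp [toWord, List.filterMap_append]

private lemma tr_val (i : Fin m) (z : Fin (m + 1)) :
    ((tr i z : Fin (m + 1)) : ℕ) =
      if (z : ℕ) = i then (i : ℕ) + 1 else if (z : ℕ) = i + 1 then (i : ℕ) else z := by
  by_cases h1 : (z : ℕ) = i
  · have : z = i.castSucc := Fin.ext (by simpa using h1)
    subst this
    simp [tr]
  · by_cases h2 : (z : ℕ) = i + 1
    · have : z = i.succ := Fin.ext (by simpa using h2)
      subst this
      simp [tr]
    · rw [if_neg h1, if_neg h2, tr, Equiv.swap_apply_of_ne_of_ne]
      · intro h; apply h1; rw [h]; simp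
      · intro h; apply h2; rw [h]; simp

private lemma perm_up (d : ℕ) : ∀ (p : ℕ), p + d ≤ m → ∀ z : Fin (m + 1),
    ((perm (toWord m (up p (p + d))) z : Fin (m + 1)) : ℕ) =
      if (z : ℕ) = p + d then p else if p ≤ (z : ℕ) ∧ (z : ℕ) < p + d then (z : ℕ) + 1 else z := by
  induction d with
  | zero =>
    intro p hp z
    have : up p (p + 0) = [] := by simp [up]
    rw [this]
    simp only [toWord, List.filterMap_nil, perm_nil', Equiv.Perm.one_apply]
    split_ifs <;> omega
  | succ d ih =>
    intro p hp z
    have h1 : up p (p + (d + 1)) = (p, true) :: up (p + 1) (p + 1 + d) := by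
      have e1 : p + (d + 1) - p = d + 1 := by omega
      have e2 : p + 1 + d - (p + 1) = d := by omega
      rw [up, up, e1, e2, List.range'_succ, List.map_cons]
    have h2 : toWord m ((p, true) :: up (p + 1) (p + 1 + d))
        = (⟨p, by omega⟩, true) :: toWord m (up (p + 1) (p + 1 + d)) := by
      have : p < m := by omega
      simp [toWord, this]
    rw [h1, h2, perm_cons', Equiv.Perm.mul_apply, tr_val, ih (p + 1) (by omega) z]
    simp only
    split_ifs <;> omega

private lemma perm_dn (d : ℕ) : ∀ (q : ℕ), q + d ≤ m → ∀ z : Fin (m + 1),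
    ((perm (toWord m (dn (q + d) q)) z : Fin (m + 1)) : ℕ) =
      if (z : ℕ) = q then q + d else if q < (z : ℕ) ∧ (z : ℕ) ≤ q + d then (z : ℕ) - 1 else z := by
  induction d with
  | zero =>
    intro q hq z
    have : dn (q + 0) q = [] := by simp [dn]
    rw [this]
    simp only [toWord, List.filterMap_nil, perm_nil', Equiv.Perm.one_apply]
    split_ifs <;> omega
  | succ d ih =>
    intro q hq z
    have h1 : dn (q + (d + 1)) q = (q + d, false) :: dn (q + d) q := by
      have e1 : q + (d + 1) - q = d + 1 := by omega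
      have e2 : q + d - q = d := by omega
      rw [dn, dn, e1, e2, List.range'_concat]
      simp
    have h2 : toWord m ((q + d, false) :: dn (q + d) q)
        = (⟨q + d, by omega⟩, false) :: toWord m (dn (q + d) q) := by
      have : q + d < m := by omega
      simp [toWord, this]
    rw [h1, h2, perm_cons', Equiv.Perm.mul_apply, tr_val, ih q (by omega) z]
    simp only
    split_ifs <;> omega

private lemma perm_slide {p q : ℕ} (hp : p ≤ m) (hq : q ≤ m) (z : Fin (m + 1)) :
    ((perm (toWord m (slide p q)) z : Fin (m + 1)) : ℕ) =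
      if (z : ℕ) = q then p else if p ≤ (z : ℕ) ∧ (z : ℕ) < q then (z : ℕ) + 1
      else if q < (z : ℕ) ∧ (z : ℕ) ≤ p then (z : ℕ) - 1 else z := by
  rcases le_total p q with h | h
  · obtain ⟨d, rfl⟩ := Nat.exists_eq_add_of_le h
    have h1 : dn p (p + d) = [] := by
      have : p - (p + d) = 0 := by omega
      simp [dn, this]
    rw [slide, h1, List.append_nil, perm_up d p hq z]
    split_ifs <;> omega
  · obtain ⟨d, rfl⟩ := Nat.exists_eq_add_of_le h
    have h1 : up (q + d) q = [] := by
      have : q - (q + d) = 0 := by omega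
      simp [up, this]
    rw [slide, h1, List.nil_append, perm_dn d q hp z]
    split_ifs <;> omega

private lemma cnt_insert {Q : Finset α} {b : α} (hb : b ∉ Q) (y : α) :
    cnt (insert b Q) y = cnt Q y + if b < y then 1 else 0 := by
  rw [cnt, cnt, filter_insert]
  by_cases h : b < y
  · rw [if_pos h, if_pos h, card_insert_of_notMem]
    exact fun h' => hb (mem_of_mem_filter _ h')
  · rw [if_neg h, if_neg h, add_zero]

private lemma cnt_mono {Q : Finset α} {x y : α} (h : x ≤ y) : cnt Q x ≤ cnt Q y :=
  card_le_card fun z hz => by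
    rw [mem_filter] at hz ⊢
    exact ⟨hz.1, hz.2.trans_le h⟩

private lemma cnt_lt_cnt {Q : Finset α} {x y : α} (hx : x ∈ Q) (h : x < y) : cnt Q x < cnt Q y := by
  apply card_lt_card
  refine ⟨fun z hz => ?_, fun h' => ?_⟩
  · rw [mem_filter] at hz ⊢
    exact ⟨hz.1, hz.2.trans h⟩
  · have : x ∈ Q.filter fun z => z < x := h' (mem_filter.mpr ⟨hx, h⟩)
    simp at this

private lemma cnt_le_card (Q : Finset α) (y : α) : cnt Q y ≤ Q.card := card_le_card (filter_subset _ _)

theorem flow_slide (P : Finset α) (hP : P.card = m + 1) (e : α × α) (ha : e.1 ∈ P) (hb : e.2 ∉ P) :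
    Flow (toWord m (slide (cnt (P.erase e.1) e.1) (cnt (P.erase e.1) e.2))) P
      (insert e.2 (P.erase e.1)) (mv e) := by
  obtain ⟨a, b⟩ := e
  simp only at ha hb ⊢
  set Q := P.erase a with hQ
  have haQ : a ∉ Q := by simp [hQ]
  have hbQ : b ∉ Q := fun h => hb (mem_of_mem_erase h)
  have hPQ : P = insert a Q := by rw [hQ, insert_erase ha]
  have hQc : Q.card = m := by
    have := card_erase_add_one ha
    rw [← hQ] at this
    omega
  refine ⟨hP, by rw [hQ, card_move ha hb, hP], fun y hy => ?_, fun y hy z hz => ?_⟩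
  · simp only [mv]
    by_cases h : y = a
    · simp [h]
    · rw [if_neg h]
      exact mem_insert_of_mem (mem_erase.mpr ⟨h, hy⟩)
  · rw [perm_slide (hQc ▸ cnt_le_card Q a) (hQc ▸ cnt_le_card Q b) z]
    by_cases h : y = a
    · subst h
      simp only [mv, if_true] at hz
      rw [cnt_insert hbQ, if_neg (lt_irrefl _), add_zero] at hz
      rw [if_pos hz]
      conv_rhs => rw [hPQ, cnt_insert haQ, if_neg (lt_irrefl _), add_zero]
    · have hyQ : y ∈ Q := mem_erase.mpr ⟨h, hy⟩
      have hyb : y ≠ b := fun h' => hbQ (h' ▸ hyQ)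
      simp only [mv, if_neg h] at hz
      rw [cnt_insert hbQ] at hz
      have hr : cnt P y = cnt Q y + if a < y then 1 else 0 := by
        conv_lhs => rw [hPQ, cnt_insert haQ]
      rw [hr]
      rcases lt_or_gt_of_ne h with h1 | h1 <;> rcases lt_or_gt_of_ne hyb with h2 | h2
      · have c1 := cnt_lt_cnt hyQ h1
        have c2 := cnt_lt_cnt hyQ h2
        rw [if_neg (not_lt.mpr h2.le)] at hz
        rw [if_neg (not_lt.mpr h1.le)]
        split_ifs <;> omega
      · have c1 := cnt_lt_cnt hyQ h1
        have c2 := cnt_mono (Q := Q) h2.le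
        rw [if_pos h2] at hz
        rw [if_neg (not_lt.mpr h1.le)]
        split_ifs <;> omega
      · have c1 := cnt_mono (Q := Q) h1.le
        have c2 := cnt_lt_cnt hyQ h2
        rw [if_neg (not_lt.mpr h2.le)] at hz
        rw [if_pos h1]
        split_ifs <;> omega
      · have c1 := cnt_mono (Q := Q) h1.le
        have c2 := cnt_mono (Q := Q) h2.le
        rw [if_pos h2] at hz
        rw [if_pos h1]
        split_ifs <;> omega

theorem flow_gridWord (L : List (α × α)) (P : Finset α) (hP : P.card = m + 1) (hv : Valid L P) :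
    Flow (toWord m (gridWord L P)) P (endSet L P) (flowFn L) := by
  induction L generalizing P with
  | nil =>
    refine ⟨hP, hP, fun y hy => hy, fun y hy z hz => ?_⟩
    simp only [gridWord, toWord, List.filterMap_nil, perm_nil', Equiv.Perm.one_apply]
    exact hz
  | cons e L ih =>
    obtain ⟨ha, hb, hv⟩ := hv
    have h1 := flow_slide P hP e ha hb
    have h2 := ih _ (by rw [card_move ha hb, hP]) hv
    have h3 := h1.comp h2
    rw [← toWord_append] at h3
    exact h3

theorem endSet_append (L L' : List (α × α)) (P : Finset α) :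
    endSet (L ++ L') P = endSet L' (endSet L P) := by
  induction L generalizing P with
  | nil => rfl
  | cons e L ih => exact ih _

theorem valid_append (L L' : List (α × α)) (P : Finset α) :
    Valid (L ++ L') P ↔ Valid L P ∧ Valid L' (endSet L P) := by
  induction L generalizing P with
  | nil => simp [Valid, endSet]
  | cons e L ih =>
    rw [List.cons_append, Valid, ih, Valid, endSet]
    tauto

theorem gridWord_append (L L' : List (α × α)) (P : Finset α) :
    gridWord (L ++ L') P = gridWord L P ++ gridWord L' (endSet L P) := by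
  induction L generalizing P with
  | nil => rfl
  | cons e L ih => rw [List.cons_append, gridWord, ih, gridWord, endSet, List.append_assoc]

end RandomGrid
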