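import Pool.Agent.Helper46.Grid.Defs2

namespace RandomGrid

open VassBraid Finset Function

variable {α : Type*} [LinearOrder α] {m : ℕ}

theorem oc_flowFn_append (L1 L2 : List (α × α)) (y : α) :
    flowFn (L1 ++ L2) y = flowFn L2 (flowFn L1 y) := by
  induction L1 generalizing y with
  | nil => rfl
  | cons e L1 ih => exact ih (mv e y)

theorem oc_flowFn_fix (L : List (α × α)) (z : α) (hz : z ∉ L.map Prod.fst) : flowFn L z = z := by
  induction L with
  | nil => rfl
  | cons e L ih =>
    rw [List.map_cons, List.mem_cons, not_or] at hz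
    show flowFn L (mv e z) = z
    rw [mv, if_neg hz.1]
    exact ih hz.2

theorem oc_valid_left (L1 L2 : List (α × α)) (P : Finset α) (h : Valid (L1 ++ L2) P) :
    Valid L1 P := by
  induction L1 generalizing P with
  | nil => trivial
  | cons e L1 ih => exact ⟨h.1, h.2.1, ih _ h.2.2⟩

theorem oc_notTarget (L : List (α × α)) (P : Finset α) (hv : Valid L P) (z : α) (hz : z ∈ P)
    (hzs : z ∉ L.map Prod.fst) (y : α) (hy : y ∈ P) (h : flowFn L y = z) : y = z := by
  induction L generalizing P y with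
  | nil => exact h
  | cons e L ih =>
    rw [List.map_cons, List.mem_cons, not_or] at hzs
    obtain ⟨h1, h2, h3⟩ := hv
    have hz' : z ∈ insert e.2 (P.erase e.1) :=
      Finset.mem_insert_of_mem (Finset.mem_erase.2 ⟨hzs.1, hz⟩)
    have hy' : mv e y ∈ insert e.2 (P.erase e.1) := by
      unfold mv
      split_ifs with hye
      · exact Finset.mem_insert_self _ _
      · exact Finset.mem_insert_of_mem (Finset.mem_erase.2 ⟨hye, hy⟩)
    have h4 := ih _ h3 hz' hzs.2 (mv e y) hy' h
    unfold mv at h4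
    split_ifs at h4 with hye
    · exact absurd (h4 ▸ hz) h2
    · exact h4

theorem oc_cnt_inj (P : Finset α) {y z : α} (hy : y ∈ P) (hz : z ∈ P) (h : cnt P y = cnt P z) :
    y = z := by
  have key : ∀ y z : α, y ∈ P → y < z → cnt P y < cnt P z := by
    intro y z hy hyz
    refine Finset.card_lt_card ⟨fun t ht => ?_, fun hsub => ?_⟩
    · rw [Finset.mem_filter] at ht ⊢
      exact ⟨ht.1, ht.2.trans hyz⟩
    · have := hsub (Finset.mem_filter.2 ⟨hy, hyz⟩)
      exact lt_irrefl _ (Finset.mem_filter.1 this).2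
  rcases lt_trichotomy y z with h1 | h1 | h1
  · exact absurd h (key y z hy h1).ne
  · exact h1
  · exact absurd h.symm (key z y hz h1).ne

theorem oc_cnt_lt (P : Finset α) {y : α} (hy : y ∈ P) : cnt P y < P.card := by
  refine Finset.card_lt_card ⟨Finset.filter_subset _ _, fun hsub => ?_⟩
  exact lt_irrefl _ (Finset.mem_filter.1 (hsub hy)).2

theorem oneComp_moves [Fintype α] {β : Type*} (w : List (Fin m × β)) (P : Finset α)
    (L : List (α × α)) (hf : Flow w P P (flowFn L)) (hv : Valid L P) (he : endSet L P = P)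
    (hsrc : (L.map Prod.fst).Nodup) (hall : ∀ y, y ∈ L.map Prod.fst) (S : Equiv.Perm α)
    (hS : ∀ e ∈ L, S e.1 = e.2) (hcyc : ∀ x y, S.SameCycle x y) : OneComp w := by
  classical
  obtain ⟨hc, -, hmap, hperm⟩ := hf
  have hlt : ∀ y ∈ P, cnt P y < m + 1 := fun y hy => hc ▸ oc_cnt_lt P hy
  -- positions
  let pos : P → Fin (m + 1) := fun y => ⟨cnt P y, hlt y y.2⟩
  have hposinj : Function.Injective pos := by
    intro y z h
    exact Subtype.ext (oc_cnt_inj P y.2 z.2 (Fin.mk.inj_iff.1 h))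
  have hpos : Function.Bijective pos := by
    rw [Fintype.bijective_iff_injective_and_card]
    refine ⟨hposinj, ?_⟩
    rw [Fintype.card_coe, hc, Fintype.card_fin]
  have hstep : ∀ y (hy : y ∈ P), (perm w) (pos ⟨flowFn L y, hmap y hy⟩) = pos ⟨y, hy⟩ := by
    intro y hy
    exact Fin.ext (hperm y hy _ rfl)
  have hstep' : ∀ y (hy : y ∈ P), (perm w).SameCycle (pos ⟨flowFn L y, hmap y hy⟩)
      (pos ⟨y, hy⟩) := by
    intro y hy
    exact ⟨1, by rw [zpow_one]; exact hstep y hy⟩
  -- the main argument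
  have main : ∀ A : Set α, A ⊆ (P : Set α) → A.Nonempty → (∀ y ∈ A, flowFn L y ∈ A) →
      ∀ z ∈ P, z ∈ A := by
    intro A hAP hAne hA
    obtain ⟨y0, hy0⟩ := hAne
    let B : Set α := {x | ∃ L1 L2, L = L1 ++ L2 ∧ ∃ y ∈ A, flowFn L1 y = x}
    have step : ∀ L1 L2, L = L1 ++ L2 → ∀ y ∈ A, ∀ x, flowFn L1 y = x → x ∈ L2.map Prod.fst →
        S x ∈ B := by
      intro L1 L2 hL y hy x hx hx2
      obtain ⟨e, he1, he2⟩ := List.mem_map.1 hx2
      obtain ⟨M1, M2, hM⟩ := List.append_of_mem he1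
      have hxM1 : x ∉ M1.map Prod.fst := by
        intro hxM
        rw [hL, hM, List.map_append, List.map_append, List.map_cons] at hsrc
        have h1 := (List.nodup_append.1 hsrc).2.1
        have h2 := (List.nodup_append.1 h1).2.2
        exact h2 x hxM x (by rw [he2]; exact List.mem_cons_self) rfl
      refine ⟨L1 ++ M1 ++ [e], M2, ?_, y, hy, ?_⟩
      · rw [hL, hM]; simp
      · rw [oc_flowFn_append, oc_flowFn_append, hx, oc_flowFn_fix M1 x hxM1]
        show mv e x = S x
        rw [mv, if_pos he2.symm, ← he2]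
        exact (hS e (by rw [hL]; exact List.mem_append_right _ he1)).symm
    have late : ∀ L1 L2, L = L1 ++ L2 → ∀ y ∈ A, ∀ x, flowFn L1 y = x → x ∉ L2.map Prod.fst →
        x ∈ A := by
      intro L1 L2 hL y hy x hx hx2
      have h1 := hA y hy
      rw [hL, oc_flowFn_append, hx, oc_flowFn_fix L2 x hx2] at h1
      exact h1
    have hBS : ∀ x ∈ B, S x ∈ B := by
      rintro x ⟨L1, L2, hL, y, hy, hx⟩
      by_cases hx2 : x ∈ L2.map Prod.fst
      · exact step L1 L2 hL y hy x hx hx2
      · exact step [] L rfl x (late L1 L2 hL y hy x hx hx2) x rfl (hall x)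
    have hB : ∀ z, z ∈ B := by
      intro z
      obtain ⟨n, -, hn⟩ := (hcyc y0 z).exists_pow_eq'
      have hpow : ∀ n : ℕ, (S ^ n) y0 ∈ B := by
        intro n
        induction n with
        | zero => exact ⟨[], L, rfl, y0, hy0, rfl⟩
        | succ n ih =>
          rw [pow_succ', Equiv.Perm.mul_apply]
          exact hBS _ ih
      rw [← hn]
      exact hpow n
    intro z hz
    obtain ⟨L1, L2, hL, y, hy, hyz⟩ := hB z
    by_cases hz1 : z ∈ L1.map Prod.fst
    · have hz2 : z ∉ L2.map Prod.fst := by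
        intro hz2
        rw [hL, List.map_append] at hsrc
        exact (List.nodup_append.1 hsrc).2.2 z hz1 z hz2 rfl
      exact late L1 L2 hL y hy z hyz hz2
    · have hv1 : Valid L1 P := oc_valid_left L1 L2 P (hL ▸ hv)
      have := oc_notTarget L1 P hv1 z hz hz1 y (hAP hy) hyz
      rw [← this]
      exact hy
  intro a b
  obtain ⟨ya, hya⟩ := hpos.2 a
  obtain ⟨yb, hyb⟩ := hpos.2 b
  let A : Set α := {y | ∃ hy : y ∈ P, (perm w).SameCycle a (pos ⟨y, hy⟩)}
  have h1 := main A (fun y hy => hy.1) ⟨ya, ya.2, by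
    rw [← hya]⟩ (by
    rintro y ⟨hy, hsc⟩
    exact ⟨hmap y hy, hsc.trans (hstep' y hy).symm⟩) yb yb.2
  obtain ⟨_, h2⟩ := h1
  rw [← hyb]
  exact h2

end RandomGrid
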