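import Pool.Agent.Helper46.Grid.Flow
import Pool.Agent.Helper46.Grid.OneComp
import Pool.Agent.Helper46.Grid.Cycle

namespace RandomGrid

open VassBraid Finset Function

variable {n : ℕ}

/-- the condition for a row to be occupied before column `x`; its horizontal edge goes from column
`p` to column `q` -/
def gridCond (x p q : ℕ) : Prop := (p < q ∧ p < x ∧ x ≤ q) ∨ (q < p ∧ (x ≤ q ∨ p < x))

/-- the occupied rows before column `x` -/
def occ (c r : Equiv.Perm (Fin (n + 1))) (x : ℕ) : Finset (Fin (n + 1)) :=
  univ.filter fun y => (c (r.symm y) < c (r.symm y + 1) ∧ (c (r.symm y) : ℕ) < x ∧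
      x ≤ (c (r.symm y + 1) : ℕ)) ∨
    (c (r.symm y + 1) < c (r.symm y) ∧ (x ≤ (c (r.symm y + 1) : ℕ) ∨ (c (r.symm y) : ℕ) < x))

theorem mem_occ (c r : Equiv.Perm (Fin (n + 1))) (x : ℕ) (y : Fin (n + 1)) :
    y ∈ occ c r x ↔ gridCond x (c (r.symm y)) (c (r.symm y + 1)) := by
  unfold occ gridCond
  rw [mem_filter]
  simp only [mem_univ, true_and, Fin.lt_def]

theorem occ_zero (c r : Equiv.Perm (Fin (n + 1))) : occ c r 0 = wrap c r := by
  ext y
  rw [mem_occ]
  unfold wrap gridCond
  rw [mem_filter]
  simp only [mem_univ, true_and, Fin.lt_def]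
  omega

theorem occ_last (c r : Equiv.Perm (Fin (n + 1))) : occ c r (n + 1) = wrap c r := by
  ext y
  rw [mem_occ]
  unfold wrap gridCond
  rw [mem_filter]
  simp only [mem_univ, true_and, Fin.lt_def]
  have h1 := (c (r.symm y)).isLt
  have h2 := (c (r.symm y + 1)).isLt
  omega

theorem col_val {x : ℕ} (hx : x ≤ n) : (col n x : ℕ) = x := by
  unfold col
  rw [Fin.val_ofNat]
  exact Nat.mod_eq_of_lt (by omega)

theorem grid_add_one_ne (hn : 1 ≤ n) (k : Fin (n + 1)) : k + 1 ≠ k := by
  intro h
  have h1 : (1 : Fin (n + 1)) = 0 := by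
    have : k + 1 = k + 0 := by rw [h, add_zero]
    exact add_left_cancel this
  have h2 := congrArg Fin.val h1
  rw [Fin.val_one', Fin.val_zero, Nat.mod_eq_of_lt (by omega)] at h2
  omega

theorem occ_step (hn : 1 ≤ n) (c r : Equiv.Perm (Fin (n + 1))) {x : ℕ} (hx : x ≤ n) :
    (edge c r (col n x)).1 ∈ occ c r x ∧ (edge c r (col n x)).2 ∉ occ c r x ∧
      insert (edge c r (col n x)).2 ((occ c r x).erase (edge c r (col n x)).1) =
        occ c r (x + 1) := by
  set ks := c.symm (col n x) with hks
  have he : edge c r (col n x) = (r (ks - 1), r ks) := rfl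
  have hc : (c ks : ℕ) = x := by
    rw [hks, Equiv.apply_symm_apply, col_val hx]
  have hpq : ∀ k : Fin (n + 1), (c k : ℕ) ≠ (c (k + 1) : ℕ) := by
    intro k h
    exact grid_add_one_ne hn k (c.injective (Fin.ext h)).symm
  have hp : ∀ k : Fin (n + 1), (c k : ℕ) = x ↔ k = ks := by
    intro k
    constructor
    · intro h
      exact c.injective (Fin.ext (h.trans hc.symm))
    · rintro rfl
      exact hc
  rw [he]
  simp only
  refine ⟨?_, ?_, ?_⟩
  · rw [mem_occ, Equiv.symm_apply_apply, sub_add_cancel]
    have h1 := hpq (ks - 1)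
    rw [sub_add_cancel] at h1
    unfold gridCond
    rw [hc] at h1 ⊢
    omega
  · rw [mem_occ, Equiv.symm_apply_apply]
    have h1 := hpq ks
    unfold gridCond
    rw [hc] at h1 ⊢
    omega
  · ext y
    rw [mem_insert, mem_erase, mem_occ, mem_occ]
    set k := r.symm y with hk
    have hy1 : y = r ks ↔ (c k : ℕ) = x := by
      rw [hp, hk, Equiv.symm_apply_eq]
    have hy2 : y = r (ks - 1) ↔ (c (k + 1) : ℕ) = x := by
      rw [hp, hk, ← eq_sub_iff_add_eq, Equiv.symm_apply_eq]
    rw [ne_eq, hy1, hy2]
    have h1 := hpq k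
    unfold gridCond
    omega

theorem moves_range (c r : Equiv.Perm (Fin (n + 1))) :
    moves c r = (List.range' 0 (n + 1)).map fun j => edge c r (col n j) := by
  unfold moves
  apply List.ext_getElem
  · simp
  · intro i h1 h2
    simp only [List.getElem_map, List.getElem_finRange, List.getElem_range', zero_add, one_mul]
    congr 1
    apply Fin.ext
    have h3 : i < n + 1 := by simpa using h1
    rw [col_val (by omega)]
    rfl

theorem grid_walk (hn : 1 ≤ n) (c r : Equiv.Perm (Fin (n + 1))) : ∀ (m x : ℕ), x + m ≤ n + 1 →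
    Valid ((List.range' x m).map fun j => edge c r (col n j)) (occ c r x) ∧
      endSet ((List.range' x m).map fun j => edge c r (col n j)) (occ c r x) =
        occ c r (x + m) := by
  intro m
  induction m with
  | zero => intro x _; exact ⟨trivial, rfl⟩
  | succ m ih =>
    intro x hx
    obtain ⟨h1, h2, h3⟩ := occ_step hn c r (show x ≤ n by omega)
    obtain ⟨h4, h5⟩ := ih (x + 1) (by omega)
    rw [List.range'_succ, List.map_cons]
    simp only [Valid, endSet]
    rw [h3]
    refine ⟨⟨h1, h2, h4⟩, ?_⟩
    rw [h5]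
    congr 1
    omega

theorem valid_moves (hn : 1 ≤ n) (c r : Equiv.Perm (Fin (n + 1))) :
    Valid (moves c r) (wrap c r) ∧ endSet (moves c r) (wrap c r) = wrap c r := by
  have h := grid_walk hn c r (n + 1) 0 (by omega)
  rw [occ_zero, zero_add, occ_last, ← moves_range] at h
  exact h

theorem wrap_card (hn : 1 ≤ n) (c r : Equiv.Perm (Fin (n + 1))) :
    (wrap c r).card = ((wrap c r).card - 1) + 1 := by
  have h : 0 < (wrap c r).card := by
    rw [card_pos]
    refine ⟨r (c.symm (Fin.last n)), ?_⟩
    unfold wrap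
    rw [mem_filter]
    refine ⟨mem_univ _, ?_⟩
    rw [Equiv.symm_apply_apply, Equiv.apply_symm_apply]
    refine lt_of_le_of_ne (Fin.le_last _) fun h => ?_
    rw [← Equiv.eq_symm_apply] at h
    exact grid_add_one_ne hn _ h
  omega

theorem src_moves (c r : Equiv.Perm (Fin (n + 1))) :
    ((moves c r).map Prod.fst).Nodup ∧ ∀ y, y ∈ (moves c r).map Prod.fst := by
  unfold moves
  rw [List.map_map]
  constructor
  · refine (List.nodup_finRange _).map fun x y h => ?_
    have h1 : r (c.symm x - 1) = r (c.symm y - 1) := h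
    exact c.symm.injective (sub_left_injective (r.injective h1))
  · intro y
    rw [List.mem_map]
    refine ⟨c (r.symm y + 1), List.mem_finRange _, ?_⟩
    show r (c.symm (c (r.symm y + 1)) - 1) = y
    simp

theorem isKnot_gridKnot (n : ℕ) (c r : Equiv.Perm (Fin (n + 1))) : IsKnot (gridKnot c r) := by
  rcases Nat.eq_zero_or_pos n with rfl | hn
  · intro a b
    have hc : (wrap c r).card ≤ 1 := by
      calc (wrap c r).card ≤ (univ : Finset (Fin (0 + 1))).card := card_le_card (subset_univ _)
        _ = 1 := by simp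
    have h1 : (gridKnot c r).1 = 0 := by
      show (wrap c r).card - 1 = 0
      omega
    have hab : a = b := by
      apply Fin.ext
      have ha := a.isLt
      have hb := b.isLt
      omega
    rw [hab]
  · have hP := wrap_card hn c r
    obtain ⟨hv, he⟩ := valid_moves hn c r
    obtain ⟨hs, hall⟩ := src_moves c r
    have hf := flow_gridWord (moves c r) (wrap c r) hP hv
    rw [he] at hf
    refine oneComp_moves _ (wrap c r) (moves c r) hf hv he hs hall
      (r * finRotate (n + 1) * r⁻¹) ?_ ?_
    · intro e hem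
      unfold moves at hem
      rw [List.mem_map] at hem
      obtain ⟨x, _, rfl⟩ := hem
      show r (finRotate (n + 1) (r⁻¹ (r (c.symm x - 1)))) = r (c.symm x)
      rw [Equiv.Perm.inv_def, Equiv.symm_apply_apply, finRotate_succ_apply, sub_add_cancel]
    · intro x y
      have h1 := rot_cycle n (r⁻¹ x) (r⁻¹ y)
      have h2 := (Equiv.Perm.sameCycle_conj (g := r)).2 h1
      exact h2

theorem moves_eq (c r : Equiv.Perm (Fin (n + 1))) (J : Finset ℕ) :
    moves c r = plain (PL c r J) ++ tailL c r := by
  have h1 : ∀ B : ℕ, plain ((List.range B).map fun j =>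
      ((if j ∈ J then some j else none, edge c r (col n (2 * j)), edge c r (col n (2 * j + 1))) :
        Pair (Fin (n + 1)))) = (List.range' 0 (2 * B)).map fun j => edge c r (col n j) := by
    intro B
    induction B with
    | zero => rfl
    | succ B ih =>
      rw [List.range_succ, List.map_append]
      unfold plain at ih ⊢
      rw [List.flatMap_append, ih]
      have h2 : 2 * (B + 1) = 2 * B + 2 := by ring
      rw [h2, ← List.range'_append_1, List.map_append]
      congr 1
      simp [List.range'_succ]
  rw [moves_range]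
  unfold PL tailL
  rw [h1]
  have h3 : 2 * (2 * ((n + 1) / 4)) = 4 * ((n + 1) / 4) := by ring
  rw [h3, ← List.map_append]
  congr 1
  have h4 : n + 1 = 4 * ((n + 1) / 4) + (n + 1 - 4 * ((n + 1) / 4)) := by omega
  conv_lhs => rw [h4]
  rw [← List.range'_append_1, zero_add]

end RandomGrid
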