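import Pool.Agent.Helper46.Grid.Tmpl
import Pool.Agent.Helper46.Grid.Grid

/-!
# Interlaced double points of the template
-/

namespace RandomGrid

open VassBraid Finset Function

variable {n : ℕ}

theorem names_PL (c r : Equiv.Perm (Fin (n + 1))) (J : Finset ℕ)
    (hJ : ∀ j ∈ J, j < 2 * ((n + 1) / 4)) :
    (names (PL c r J)).Nodup ∧ ∀ j, j ∈ names (PL c r J) ↔ j ∈ J := by
  have h : names (PL c r J) = (List.range (2 * ((n + 1) / 4))).filter fun j => decide (j ∈ J) := by
    unfold names PL
    rw [List.filterMap_map, ← List.filterMap_eq_filter]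
    refine List.filterMap_congr fun j _ => ?_
    simp only [Function.comp, Option.guard]
    by_cases hj : j ∈ J <;> simp [hj]
  rw [h]
  refine ⟨List.nodup_range.filter _, fun j => ?_⟩
  rw [List.mem_filter, List.mem_range]
  constructor
  · rintro ⟨_, h2⟩
    exact of_decide_eq_true h2
  · intro h2
    exact ⟨hJ j h2, decide_eq_true h2⟩

private lemma inter_smo_src {α : Type*} (L : List (Pair α)) (b : ℕ → Bool) :
    (smo L b).map Prod.fst = (plain L).map Prod.fst := by
  unfold smo plain
  rw [List.map_flatMap, List.map_flatMap]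
  congr 1
  funext x
  obtain ⟨a, u, v⟩ := x
  cases a with
  | none => rfl
  | some j =>
    by_cases h : b j = true
    · simp [h]
    · simp [h]

private lemma inter_col_inj {a b : ℕ} (ha : a < n + 1) (hb : b < n + 1) (h : col n a = col n b) : a = b := by
  have := congrArg Fin.val h
  simp only [col, Fin.ofNat] at this
  rwa [Nat.mod_eq_of_lt ha, Nat.mod_eq_of_lt hb] at this

/-- smoothing the two pairs of an alternating block leaves one component -/
theorem inter_tmpl (hn : 1 ≤ n) (c r : Equiv.Perm (Fin (n + 1))) (G : Finset ℕ)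
    (hG : ∀ i ∈ G, i < (n + 1) / 4) (hTI : AllTI (PL c r (pairsOf G))) (i : ℕ) (hi : i ∈ G)
    (hA : AltBlock c i) (j k : ℕ) (hj : j < (names (PL c r (pairsOf G))).length)
    (hk : k < (names (PL c r (pairsOf G))).length)
    (hj' : (names (PL c r (pairsOf G)))[j] = 2 * i)
    (hk' : (names (PL c r (pairsOf G)))[k] = 2 * i + 1) :
    Interlaced (tmpl ((wrap c r).card - 1) (PL c r (pairsOf G)) (tailL c r) (wrap c r)) j k := by
  have hpairs : ∀ j ∈ pairsOf G, j < 2 * ((n + 1) / 4) := by
    intro j hj
    obtain ⟨t, ht, hjt⟩ := mem_biUnion.1 hj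
    have := hG t ht
    simp only [mem_insert, mem_singleton] at hjt
    omega
  obtain ⟨hnd, -⟩ := names_PL c r (pairsOf G) hpairs
  have hP := wrap_card hn c r
  have hmv := moves_eq c r (pairsOf G)
  obtain ⟨hv, hend⟩ := valid_moves hn c r
  obtain ⟨hs1, hs2⟩ := src_moves c r
  rw [hmv] at hv hend hs1 hs2
  set L := PL c r (pairsOf G) with hL
  set b : ℕ → Bool := fun t => decide (t = 2 * i ∨ t = 2 * i + 1) with hb
  have he : ∀ t, ∀ ht : t < (names L).length, (fun t => decide (t = j ∨ t = k)) t
      = b ((names L)[t]) := by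
    intro t ht
    simp only [hb]
    congr 1
    apply propext
    constructor
    · rintro (rfl | rfl)
      · exact Or.inl hj'
      · exact Or.inr hk'
    · rintro (h | h)
      · exact Or.inl ((List.Nodup.getElem_inj_iff hnd).1 (h.trans hj'.symm))
      · exact Or.inr ((List.Nodup.getElem_inj_iff hnd).1 (h.trans hk'.symm))
  have hf := smooth_tmpl L (tailL c r) (wrap c r) hP hv hTI b _ he
  obtain ⟨hv2, he2⟩ := valid_smo L (tailL c r) (wrap c r) hv hTI b
  rw [hend] at hf he2
  have hsrc : (smo L b ++ tailL c r).map Prod.fst = (plain L ++ tailL c r).map Prod.fst := by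
    rw [List.map_append, List.map_append, inter_smo_src]
  have hiG := hG i hi
  set k1 := c.symm (col n (4 * i)) with hk1
  set k2 := c.symm (col n (4 * i + 1)) with hk2
  set k3 := c.symm (col n (4 * i + 2)) with hk3
  set k4 := c.symm (col n (4 * i + 3)) with hk4
  have hne : ∀ a a' : ℕ, a < n + 1 → a' < n + 1 → a ≠ a' → c.symm (col n a) ≠ c.symm (col n a') :=
    fun a a' ha ha' haa h => haa (inter_col_inj ha ha' (c.symm.injective h))
  have hS : ∀ x : Fin (n + 1), (r * (Equiv.swap k1 k2 * Equiv.swap k3 k4 * finRotate (n + 1)) * r⁻¹)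
      (edge c r x).1 = r ((Equiv.swap k1 k2 * Equiv.swap k3 k4) (c.symm x)) := by
    intro x
    have hr : ∀ z, r⁻¹ (r z) = z := fun z => Equiv.symm_apply_apply r z
    simp only [edge, Equiv.Perm.mul_apply, hr, finRotate_apply, sub_add_cancel]
  have hfix : ∀ a : ℕ, a < n + 1 → a ≠ 4 * i → a ≠ 4 * i + 1 → a ≠ 4 * i + 2 → a ≠ 4 * i + 3 →
      (r * (Equiv.swap k1 k2 * Equiv.swap k3 k4 * finRotate (n + 1)) * r⁻¹)
      (edge c r (col n a)).1 = (edge c r (col n a)).2 := by
    intro a ha h1 h2 h3 h4
    rw [hS, Equiv.Perm.mul_apply, Equiv.swap_apply_of_ne_of_ne (a := k3) (b := k4)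
      (hne a _ ha (by omega) h3) (hne a _ ha (by omega) h4),
      Equiv.swap_apply_of_ne_of_ne (hne a _ ha (by omega) h1) (hne a _ ha (by omega) h2)]
    rfl
  have hm1 : (r * (Equiv.swap k1 k2 * Equiv.swap k3 k4 * finRotate (n + 1)) * r⁻¹)
      (edge c r (col n (4 * i))).1 = (edge c r (col n (4 * i + 1))).2 := by
    rw [hS, Equiv.Perm.mul_apply, Equiv.swap_apply_of_ne_of_ne (a := k3) (b := k4)
      (hne _ _ (by omega) (by omega) (by omega)) (hne _ _ (by omega) (by omega) (by omega)),
      Equiv.swap_apply_left]
    rfl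
  have hm2 : (r * (Equiv.swap k1 k2 * Equiv.swap k3 k4 * finRotate (n + 1)) * r⁻¹)
      (edge c r (col n (4 * i + 1))).1 = (edge c r (col n (4 * i))).2 := by
    rw [hS, Equiv.Perm.mul_apply, Equiv.swap_apply_of_ne_of_ne (a := k3) (b := k4)
      (hne _ _ (by omega) (by omega) (by omega)) (hne _ _ (by omega) (by omega) (by omega)),
      Equiv.swap_apply_right]
    rfl
  have hm3 : (r * (Equiv.swap k1 k2 * Equiv.swap k3 k4 * finRotate (n + 1)) * r⁻¹)
      (edge c r (col n (4 * i + 2))).1 = (edge c r (col n (4 * i + 3))).2 := by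
    rw [hS, Equiv.Perm.mul_apply, Equiv.swap_apply_left, Equiv.swap_apply_of_ne_of_ne
      (hne _ _ (by omega) (by omega) (by omega)) (hne _ _ (by omega) (by omega) (by omega))]
    rfl
  have hm4 : (r * (Equiv.swap k1 k2 * Equiv.swap k3 k4 * finRotate (n + 1)) * r⁻¹)
      (edge c r (col n (4 * i + 3))).1 = (edge c r (col n (4 * i + 2))).2 := by
    rw [hS, Equiv.Perm.mul_apply, Equiv.swap_apply_right, Equiv.swap_apply_of_ne_of_ne
      (hne _ _ (by omega) (by omega) (by omega)) (hne _ _ (by omega) (by omega) (by omega))]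
    rfl
  refine oneComp_moves _ (wrap c r) (smo L b ++ tailL c r) hf hv2 he2 (hsrc ▸ hs1)
    (fun y => hsrc ▸ hs2 y)
    (r * (Equiv.swap k1 k2 * Equiv.swap k3 k4 * finRotate (n + 1)) * r⁻¹) ?_ ?_
  · intro e hemem
    rcases List.mem_append.1 hemem with h | h
    · unfold smo at h
      obtain ⟨x, hx, hex⟩ := List.mem_flatMap.1 h
      rw [hL] at hx
      unfold PL at hx
      obtain ⟨t, ht, rfl⟩ := List.mem_map.1 hx
      rw [List.mem_range] at ht
      by_cases htJ : t ∈ pairsOf G
      · simp only [if_pos htJ] at hex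
        by_cases hbt : b t = true
        · rw [if_pos hbt] at hex
          have ht2 : t = 2 * i ∨ t = 2 * i + 1 := of_decide_eq_true hbt
          rcases ht2 with rfl | rfl
          · rw [show 2 * (2 * i) = 4 * i by omega] at hex
            rcases List.mem_cons.1 hex with rfl | hex
            · exact hm1
            · rcases List.mem_singleton.1 hex with rfl
              exact hm2
          · rw [show 2 * (2 * i + 1) = 4 * i + 2 by omega] at hex
            rcases List.mem_cons.1 hex with rfl | hex
            · exact hm3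
            · rcases List.mem_singleton.1 hex with rfl
              exact hm4
        · rw [if_neg hbt] at hex
          have ht2 : ¬ (t = 2 * i ∨ t = 2 * i + 1) := fun h => hbt (decide_eq_true h)
          rcases List.mem_cons.1 hex with rfl | hex
          · exact hfix _ (by omega) (by omega) (by omega) (by omega) (by omega)
          · rcases List.mem_singleton.1 hex with rfl
            exact hfix _ (by omega) (by omega) (by omega) (by omega) (by omega)
      · simp only [if_neg htJ] at hex
        have ht2 : ¬ (t = 2 * i ∨ t = 2 * i + 1) := by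
          intro h
          apply htJ
          rw [pairsOf, mem_biUnion]
          exact ⟨i, hi, by simpa using h⟩
        rcases List.mem_cons.1 hex with rfl | hex
        · exact hfix _ (by omega) (by omega) (by omega) (by omega) (by omega)
        · rcases List.mem_singleton.1 hex with rfl
          exact hfix _ (by omega) (by omega) (by omega) (by omega) (by omega)
    · unfold tailL at h
      obtain ⟨t, ht, rfl⟩ := List.mem_map.1 h
      rw [List.mem_range'_1] at ht
      exact hfix _ (by omega) (by omega) (by omega) (by omega) (by omega)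
  · intro x y
    rw [Equiv.Perm.sameCycle_conj]
    exact interlace_cycle k1 k2 k3 k4 hA _ _

end RandomGrid
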