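import Pool.Agent.Helper46.Grid.Defs2

/-!
# Pattern counts in random permutations
-/

namespace RandomGrid

open VassBraid Finset Function

variable {n : ℕ}

/-- the permutation of `Fin (n + 1)` which permutes every block `w (i, ·)` by `π i` -/
private noncomputable def extP {N k : ℕ} (w : Fin N × Fin k → Fin (n + 1)) (hw : Injective w)
    (π : Fin N → Equiv.Perm (Fin k)) : Equiv.Perm (Fin (n + 1)) := by
  classical
  exact Equiv.Perm.extendDomain (Equiv.prodShear (Equiv.refl (Fin N)) π)
    (Equiv.ofInjective w hw)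

private lemma extP_apply {N k : ℕ} (w : Fin N × Fin k → Fin (n + 1)) (hw : Injective w)
    (π : Fin N → Equiv.Perm (Fin k)) (i : Fin N) (t : Fin k) :
    extP w hw π (w (i, t)) = w (i, π i t) := by
  classical
  have h := Equiv.Perm.extendDomain_apply_image (Equiv.prodShear (Equiv.refl (Fin N)) π)
    (Equiv.ofInjective w hw) (i, t)
  simpa [extP] using h

open Classical in
/-- the factor of block `i` -/
private noncomputable def fac {N k : ℕ} (w : Fin N × Fin k → Fin (n + 1))
    (A : Fin N → (Fin k → Fin (n + 1)) → Prop) (r : Equiv.Perm (Fin (n + 1))) (i : Fin N) : ℝ :=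
  if A i (fun t => r (w (i, t))) then 1 / 2 else 1

open Classical in
private lemma sum_fac {N k : ℕ} (w : Fin N × Fin k → Fin (n + 1)) (hw : Injective w)
    (A : Fin N → (Fin k → Fin (n + 1)) → Prop)
    (hA : ∀ i v, Injective v → ∃ τ : Equiv.Perm (Fin k), A i (v ∘ τ)) :
    (k.factorial : ℝ) ^ N * ∑ r : Equiv.Perm (Fin (n + 1)), ∏ i, fac w A r i ≤
      ((k.factorial : ℝ) - 1 / 2) ^ N * ((n + 1).factorial : ℝ) := by
  have e1 : ∀ π : Fin N → Equiv.Perm (Fin k),
      ∑ r : Equiv.Perm (Fin (n + 1)), ∏ i, fac w A r i =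
        ∑ r : Equiv.Perm (Fin (n + 1)), ∏ i, fac w A (r * extP w hw π) i := by
    intro π
    exact (Equiv.sum_comp (Equiv.mulRight (extP w hw π)) fun r => ∏ i, fac w A r i).symm
  have e2 : (k.factorial : ℝ) ^ N * ∑ r : Equiv.Perm (Fin (n + 1)), ∏ i, fac w A r i =
      ∑ r : Equiv.Perm (Fin (n + 1)), ∑ π : Fin N → Equiv.Perm (Fin k),
        ∏ i, fac w A (r * extP w hw π) i := by
    rw [Finset.sum_comm, ← Finset.sum_congr rfl fun π _ => e1 π, Finset.sum_const, card_univ,
      Fintype.card_fun, Fintype.card_perm, Fintype.card_fin, Fintype.card_fin, nsmul_eq_mul,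
      Nat.cast_pow]
  rw [e2]
  have e3 : ∀ r : Equiv.Perm (Fin (n + 1)), ∑ π : Fin N → Equiv.Perm (Fin k),
      ∏ i, fac w A (r * extP w hw π) i ≤ ((k.factorial : ℝ) - 1 / 2) ^ N := by
    intro r
    set g : Fin N → Equiv.Perm (Fin k) → ℝ := fun i τ =>
      if A i ((fun t => r (w (i, t))) ∘ τ) then 1 / 2 else 1 with hg
    have e4 : ∀ π : Fin N → Equiv.Perm (Fin k), ∏ i, fac w A (r * extP w hw π) i =
        ∏ i, g i (π i) := by
      intro π
      refine Finset.prod_congr rfl fun i _ => ?_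
      simp only [fac, hg, Equiv.Perm.mul_apply, extP_apply]
      rfl
    have e5 : ∑ π : Fin N → Equiv.Perm (Fin k), ∏ i, g i (π i) = ∏ i, ∑ τ, g i τ := by
      rw [Finset.prod_univ_sum, Fintype.piFinset_univ]
    simp only [e4, e5]
    have e6 : ∀ i, ∑ τ, g i τ ≤ (k.factorial : ℝ) - 1 / 2 := by
      intro i
      obtain ⟨τ0, hτ⟩ := hA i (fun t => r (w (i, t)))
        (fun a b hab => by
          have h1 := hw (r.injective hab)
          simpa using h1)
      have h2 : ∑ τ : Equiv.Perm (Fin k), g i τ + 1 / 2 ≤ ∑ τ : Equiv.Perm (Fin k), (1 : ℝ) := by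
        rw [← Finset.add_sum_erase univ (g i) (mem_univ τ0),
          ← Finset.add_sum_erase univ (fun _ => (1 : ℝ)) (mem_univ τ0)]
        have h3 : g i τ0 = 1 / 2 := by
          simp only [hg]
          rw [if_pos hτ]
        have h4 : ∑ τ ∈ univ.erase τ0, g i τ ≤ ∑ τ ∈ univ.erase τ0, (1 : ℝ) := by
          refine Finset.sum_le_sum fun τ _ => ?_
          simp only [hg]
          split_ifs <;> norm_num
        rw [h3]
        linarith
      rw [Finset.sum_const, card_univ, Fintype.card_perm, Fintype.card_fin, nsmul_eq_mul,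
        mul_one] at h2
      linarith
    calc ∏ i, ∑ τ, g i τ ≤ ∏ _i : Fin N, ((k.factorial : ℝ) - 1 / 2) := by
          refine Finset.prod_le_prod (fun i _ => Finset.sum_nonneg fun τ _ => ?_) fun i _ => e6 i
          simp only [hg]
          split_ifs <;> norm_num
      _ = ((k.factorial : ℝ) - 1 / 2) ^ N := by
          rw [Finset.prod_const, card_univ, Fintype.card_fin]
  calc _ ≤ ∑ _r : Equiv.Perm (Fin (n + 1)), ((k.factorial : ℝ) - 1 / 2) ^ N :=
        Finset.sum_le_sum fun r _ => e3 r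
    _ = _ := by
        rw [Finset.sum_const, card_univ, Fintype.card_perm, Fintype.card_fin, nsmul_eq_mul,
          mul_comm]

open Classical in
theorem pattern (k : ℕ) : ∃ ε ρ : ℝ, 0 < ε ∧ 0 < ρ ∧ ρ < 1 ∧ ∀ (n N : ℕ)
    (w : Fin N × Fin k → Fin (n + 1)), Injective w → ∀ A : Fin N → (Fin k → Fin (n + 1)) → Prop,
    (∀ i v, Injective v → ∃ τ : Equiv.Perm (Fin k), A i (v ∘ τ)) →
    ((univ.filter fun r : Equiv.Perm (Fin (n + 1)) =>
        (((univ.filter fun i => A i fun t => r (w (i, t))).card : ℕ) : ℝ) < ε * N).card : ℝ)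
      ≤ ρ ^ N * ((n + 1).factorial : ℝ) := by
  set x : ℝ := 1 / (2 * k.factorial) with hx
  have hk : (1 : ℝ) ≤ k.factorial := by exact_mod_cast k.factorial_pos
  have hx0 : 0 < x := by positivity
  have hx1 : x ≤ 1 / 2 := by
    rw [hx]
    apply one_div_le_one_div_of_le (by norm_num)
    linarith
  have hlog2 : 0 < Real.log 2 := Real.log_pos (by norm_num)
  refine ⟨Real.log (1 + x) / Real.log 2, (1 + x) * (1 - x), div_pos (Real.log_pos (by linarith))
    hlog2, by nlinarith, by nlinarith, ?_⟩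
  intro n N w hw A hA
  set B := univ.filter fun r : Equiv.Perm (Fin (n + 1)) =>
        (((univ.filter fun i => A i fun t => r (w (i, t))).card : ℕ) : ℝ) <
          Real.log (1 + x) / Real.log 2 * N with hB
  have h1 : ∀ r ∈ B, ((1 + x) ^ N)⁻¹ ≤ ∏ i, fac w A r i := by
    intro r hr
    have h2 := (Finset.mem_filter.1 hr).2
    set X := (univ.filter fun i => A i fun t => r (w (i, t))).card with hX
    have h3 : ∏ i, fac w A r i = (2 ^ X : ℝ)⁻¹ := by
      simp only [fac]
      rw [Finset.prod_ite, Finset.prod_const, Finset.prod_const_one, mul_one, hX, one_div, inv_pow]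
    rw [h3]
    apply inv_anti₀ (by positivity)
    have h4 : (X : ℝ) * Real.log 2 < N * Real.log (1 + x) := by
      have h5 := mul_lt_mul_of_pos_right h2 hlog2
      have h6 : Real.log (1 + x) / Real.log 2 * N * Real.log 2 = N * Real.log (1 + x) := by
        field_simp
      linarith
    have h7 : Real.log ((2 : ℝ) ^ X) < Real.log ((1 + x) ^ N) := by
      rw [Real.log_pow, Real.log_pow]
      exact h4
    exact ((Real.log_lt_log_iff (by positivity) (by positivity)).1 h7).le
  have h8 : (B.card : ℝ) * ((1 + x) ^ N)⁻¹ ≤ ∑ r, ∏ i, fac w A r i := by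
    calc (B.card : ℝ) * ((1 + x) ^ N)⁻¹ = ∑ _r ∈ B, ((1 + x) ^ N)⁻¹ := by
          rw [Finset.sum_const, nsmul_eq_mul]
      _ ≤ ∑ r ∈ B, ∏ i, fac w A r i := Finset.sum_le_sum h1
      _ ≤ ∑ r, ∏ i, fac w A r i := by
          refine Finset.sum_le_sum_of_subset_of_nonneg (Finset.subset_univ _) fun r _ _ => ?_
          refine Finset.prod_nonneg fun i _ => ?_
          unfold fac
          split_ifs <;> norm_num
  have h9 := sum_fac w hw A hA
  have h10 : ((k.factorial : ℝ) - 1 / 2) ^ N = (k.factorial : ℝ) ^ N * (1 - x) ^ N := by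
    rw [← mul_pow]
    congr 1
    rw [hx]
    field_simp
  rw [h10, mul_assoc] at h9
  have h11 : ∑ r : Equiv.Perm (Fin (n + 1)), ∏ i, fac w A r i ≤
      (1 - x) ^ N * ((n + 1).factorial : ℝ) := le_of_mul_le_mul_left h9 (by positivity)
  have h12 := h8.trans h11
  have hpos : (0 : ℝ) < (1 + x) ^ N := by positivity
  rw [← div_eq_mul_inv, div_le_iff₀ hpos] at h12
  calc (B.card : ℝ) ≤ (1 - x) ^ N * ((n + 1).factorial : ℝ) * (1 + x) ^ N := h12
    _ = ((1 + x) * (1 - x)) ^ N * ((n + 1).factorial : ℝ) := by rw [mul_pow]; ring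

end RandomGrid
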