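import Pool.Agent.Helper46.Grid.Braid
import Pool.Agent.Helper46.Grid.Flow

namespace RandomGrid

open VassBraid Finset Function

variable {α : Type*} [LinearOrder α] {m : ℕ}

namespace Tmpl

/-! ### Counting -/

lemma cnt_mono (Q : Finset α) {x y : α} (h : x ≤ y) : cnt Q x ≤ cnt Q y := by
  unfold cnt
  exact Finset.card_le_card fun z hz => by
    rw [Finset.mem_filter] at hz ⊢
    exact ⟨hz.1, lt_of_lt_of_le hz.2 h⟩

lemma cnt_le (Q : Finset α) (x : α) : cnt Q x ≤ Q.card := Finset.card_filter_le _ _

lemma cnt_insert_lt {Q : Finset α} {x y : α} (hx : x ∉ Q) (h : x < y) :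
    cnt (insert x Q) y = cnt Q y + 1 := by
  unfold cnt
  rw [Finset.filter_insert, if_pos h, Finset.card_insert_of_notMem]
  simp [hx]

lemma cnt_insert_ge {Q : Finset α} {x y : α} (h : y ≤ x) : cnt (insert x Q) y = cnt Q y := by
  unfold cnt
  rw [Finset.filter_insert, if_neg (not_lt.2 h)]

/-! ### Permutations of words -/

/-- the permutation of a sequence of positions -/
def posPerm (m : ℕ) (w : List ℕ) : Equiv.Perm (Fin (m + 1)) :=
  (w.map fun l => if h : l < m then tr ⟨l, h⟩ else 1).prod

lemma posPerm_append (w w' : List ℕ) : posPerm m (w ++ w') = posPerm m w * posPerm m w' := by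
  simp [posPerm]

lemma toWord_cons (l : ℕ × Bool) (h : l.1 < m) (w : List (ℕ × Bool)) :
    toWord m (l :: w) = (⟨l.1, h⟩, l.2) :: toWord m w := by
  simp [toWord, h]

lemma toWord_append (w w' : List (ℕ × Bool)) : toWord m (w ++ w') = toWord m w ++ toWord m w' := by
  simp [toWord]

lemma toS_append (w w' : List (ℕ × Option Bool)) : toS m (w ++ w') = toS m w ++ toS m w' := by
  simp [toS]

lemma toS_cons (l : ℕ × Option Bool) (h : l.1 < m) (w : List (ℕ × Option Bool)) :
    toS m (l :: w) = (⟨l.1, h⟩, l.2) :: toS m w := by
  simp [toS, h]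

lemma toS_some (w : List (ℕ × Bool)) :
    toS m (w.map fun x => (x.1, some x.2)) = inS (toWord m w) := by
  induction w with
  | nil => rfl
  | cons l w ih =>
    by_cases h : l.1 < m
    · rw [List.map_cons, toS_cons _ h, toWord_cons _ h, ih]
      rfl
    · simp only [toS, toWord, inS] at ih ⊢
      rw [List.map_cons, List.filterMap_cons, List.filterMap_cons]
      simp only [h, dif_neg, not_false_eq_true]
      exact ih

lemma perm_toWord (w : List (ℕ × Bool)) : perm (toWord m w) = posPerm m (w.map Prod.fst) := by
  induction w with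
  | nil => rfl
  | cons l w ih =>
    by_cases h : l.1 < m
    · rw [toWord_cons _ h, perm_cons, ih]
      simp [posPerm, h]
    · have : toWord m (l :: w) = toWord m w := by
        simp [toWord, h]
      rw [this, ih]
      simp [posPerm, h]

lemma perm_inS {n : ℕ} (w : Word n) : perm (inS w) = perm w := by
  simp [perm, inS, Function.comp_def]

lemma posPerm_reverse (w : List ℕ) : posPerm m w * posPerm m w.reverse = 1 := by
  induction w with
  | nil => simp [posPerm]
  | cons l w ih =>
    rw [List.reverse_cons, posPerm_append]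
    have h1 : posPerm m (l :: w) = posPerm m [l] * posPerm m w := by
      rw [← posPerm_append]; rfl
    have h2 : posPerm m [l] * posPerm m [l] = 1 := by
      by_cases h : l < m
      · simp [posPerm, h, tr]
      · simp [posPerm, h]
    rw [h1]
    calc posPerm m [l] * posPerm m w * (posPerm m w.reverse * posPerm m [l])
        = posPerm m [l] * (posPerm m w * posPerm m w.reverse) * posPerm m [l] := by
          simp only [mul_assoc]
      _ = 1 := by rw [ih, mul_one, h2]

lemma posPerm_commute (w w' : List ℕ) (h : ∀ x ∈ w, ∀ y ∈ w', x + 2 ≤ y) :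
    Commute (posPerm m w) (posPerm m w') := by
  unfold posPerm
  refine Commute.list_prod_left _ _ fun p hp => Commute.list_prod_right _ _ fun q hq => ?_
  rw [List.mem_map] at hp hq
  obtain ⟨x, hx, rfl⟩ := hp
  obtain ⟨y, hy, rfl⟩ := hq
  have hxy := h x hx y hy
  by_cases h1 : x < m
  · by_cases h2 : y < m
    · rw [dif_pos h1, dif_pos h2]
      refine Equiv.Perm.Disjoint.commute (Equiv.Perm.disjoint_swap_swap ?_)
      simp only [List.nodup_cons, List.mem_cons, List.not_mem_nil, or_false, not_or, not_false_eq_true,
        List.nodup_nil, and_true, Fin.ext_iff, Fin.val_castSucc, Fin.val_succ]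
      omega
    · rw [dif_neg h2]
      exact Commute.one_right _
  · rw [dif_neg h1]
    exact Commute.one_left _

lemma map_fst_up (i j : ℕ) : (up i j).map Prod.fst = List.range' i (j - i) := by
  simp [up, Function.comp_def]

lemma map_fst_dn (i j : ℕ) : (dn j i).map Prod.fst = (List.range' i (j - i)).reverse := by
  simp [dn, Function.comp_def]

lemma slide_le {i j : ℕ} (h : i ≤ j) : slide i j = up i j := by
  have : dn i j = [] := by simp [dn, Nat.sub_eq_zero_of_le h]
  rw [slide, this, List.append_nil]

lemma slide_ge {i j : ℕ} (h : i ≤ j) : slide j i = dn j i := by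
  have : up j i = [] := by simp [up, Nat.sub_eq_zero_of_le h]
  rw [slide, this, List.nil_append]

lemma range'_split {i j k : ℕ} (h1 : i ≤ j) (h2 : j ≤ k) :
    List.range' i (k - i) = List.range' i (j - i) ++ List.range' j (k - j) := by
  have := List.range'_append (s := i) (m := j - i) (n := k - j) (step := 1)
  rw [show i + 1 * (j - i) = j by omega, show j - i + (k - j) = k - i by omega] at this
  exact this.symm

/-- the permutation of the smoothed piece -/
lemma posPerm_free {i j k l : ℕ} (h1 : i ≤ j) (h2 : j ≤ k) (h3 : k ≤ l) :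
    posPerm m ((dn (l + 1) (k + 1) ++ up i k ++ dn k j).map Prod.fst) =
      posPerm m ((slide i j ++ slide (l + 1) (k + 1)).map Prod.fst) := by
  rw [slide_le h1, slide_ge (by omega)]
  simp only [List.map_append, map_fst_up, map_fst_dn, posPerm_append]
  rw [range'_split h1 h2, posPerm_append, mul_assoc, mul_assoc, posPerm_reverse, mul_one]
  refine (posPerm_commute _ _ ?_).symm
  intro x hx y hy
  rw [List.mem_range'_1] at hx
  rw [List.mem_reverse, List.mem_range'_1] at hy
  omega

/-- the permutation of the word of a pair -/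
lemma posPerm_word {i j k l : ℕ} (h1 : i ≤ j) (h2 : j ≤ k) (h3 : k ≤ l) :
    posPerm m ((slide i k ++ slide (l + 1) j).map Prod.fst) =
      posPerm m ((dn (l + 1) (k + 1) ++ up i k ++ (k, false) :: dn k j).map Prod.fst) := by
  rw [slide_le (h1.trans h2), slide_ge (by omega)]
  have e1 : (dn (l + 1) j).map Prod.fst =
      (dn (l + 1) (k + 1)).map Prod.fst ++ k :: (dn k j).map Prod.fst := by
    simp only [map_fst_dn]
    rw [range'_split (show j ≤ k by omega) (show k ≤ l + 1 by omega),
      range'_split (show k ≤ k + 1 by omega) (show k + 1 ≤ l + 1 by omega)]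
    simp
  simp only [List.map_append, List.map_cons, posPerm_append]
  rw [e1, posPerm_append, ← mul_assoc]
  congr 1
  refine posPerm_commute _ _ ?_
  intro x hx y hy
  rw [map_fst_up, List.mem_range'_1] at hx
  rw [map_fst_dn, List.mem_reverse, List.mem_range'_1] at hy
  omega

/-! ### Words without free crossings -/

lemma doublePoints_inS {n : ℕ} (w : Word n) : doublePoints (inS w) = 0 := by
  induction w with
  | nil => rfl
  | cons l w ih =>
    have : inS (l :: w) = (l.1, some l.2) :: inS w := rfl
    rw [this, doublePoints_some, ih]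

lemma fillN_inS {n : ℕ} (w : Word n) (e : ℕ → Bool) : fillN (inS w) e = w := by
  induction w with
  | nil => rfl
  | cons l w ih =>
    have : inS (l :: w) = (l.1, some l.2) :: inS w := rfl
    rw [this, fillN, ih]

lemma smooth_inS {n : ℕ} (w : Word n) (e : ℕ → Bool) : smooth (inS w) e = inS w :=
  smooth_false _ _ fun t ht => by rw [doublePoints_inS] at ht; omega

lemma toS_free {i j k l : ℕ} (hk : k < m) :
    toS m (free i j k l) = inS (toWord m (dn (l + 1) (k + 1) ++ up i k)) ++
      (⟨k, hk⟩, none) :: inS (toWord m (dn k j)) := by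
  unfold free
  rw [toS_append, toS_some, toS_cons _ (by exact hk), toS_some]

lemma dp_free {i j k l : ℕ} (hk : k < m) : doublePoints (toS m (free i j k l)) = 1 := by
  rw [toS_free hk, doublePoints_append, doublePoints_none, doublePoints_inS, doublePoints_inS]

lemma fill_free {i j k l : ℕ} (hk : k < m) (e : ℕ → Bool) :
    fillN (toS m (free i j k l)) e =
      toWord m (dn (l + 1) (k + 1) ++ up i k ++ (k, e 0) :: dn k j) := by
  rw [toS_free hk, fillN_append, fillN_inS, fillN, fillN_inS, doublePoints_inS,
    toWord_append (dn (l + 1) (k + 1) ++ up i k), toWord_cons (k, e 0) hk]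

/-! ### A free pair -/

lemma pair_facts {P : Finset α} {a b d c : α} (ha : a ∈ P) (hb : b ∉ P)
    (hd : d ∈ insert b (P.erase a)) (hc : c ∉ insert b (P.erase a)) (h1 : a < c) (h2 : c < b)
    (h3 : b < d) :
    P.erase a = insert d ((P.erase a).erase d) ∧ P.erase d = insert a ((P.erase a).erase d) ∧
    P = insert a (insert d ((P.erase a).erase d)) ∧
    a ∉ (P.erase a).erase d ∧ b ∉ (P.erase a).erase d ∧ c ∉ (P.erase a).erase d ∧
    d ∉ (P.erase a).erase d ∧ d ∈ P ∧ c ∉ P := by
  have hda : d ≠ a := (h1.trans (h2.trans h3)).ne'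
  have hd' : d ∈ P := by
    rw [Finset.mem_insert, Finset.mem_erase] at hd
    rcases hd with hd | hd
    · exact absurd hd h3.ne'
    · exact hd.2
  have hc' : c ∉ P := by
    intro h
    exact hc (Finset.mem_insert_of_mem (Finset.mem_erase.2 ⟨h1.ne', h⟩))
  have e1 : P.erase a = insert d ((P.erase a).erase d) :=
    (Finset.insert_erase (Finset.mem_erase.2 ⟨hda, hd'⟩)).symm
  refine ⟨e1, ?_, ?_, ?_, ?_, ?_, ?_, hd', hc'⟩
  · rw [Finset.erase_right_comm]
    exact (Finset.insert_erase (Finset.mem_erase.2 ⟨hda.symm, ha⟩)).symm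
  · rw [← e1, Finset.insert_erase ha]
  · simp
  · simp [hb]
  · simp [hc']
  · simp

/-- the data of a free pair `u = (a, b)`, `v = (d, c)` -/
structure FP (m : ℕ) (u v : α × α) (P : Finset α) (i j k l : ℕ) : Prop where
  hij : i ≤ j
  hjk : j ≤ k
  hkl : k ≤ l
  hlm : l < m
  w1 : gridWord [u, v] P = slide i k ++ slide (l + 1) j
  w2 : gridWord [v, u] P = slide (l + 1) (j + 1) ++ slide i (k + 1)
  w3 : gridWord [(u.1, v.2), (v.1, u.2)] P = slide i j ++ slide (l + 1) (k + 1)
  s2 : endSet [v, u] P = endSet [u, v] P
  s3 : endSet [(u.1, v.2), (v.1, u.2)] P = endSet [u, v] P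
  v2 : Valid [v, u] P
  v3 : Valid [(u.1, v.2), (v.1, u.2)] P

lemma fp (u v : α × α) {P : Finset α} (hP : P.card = m + 1) (hv : Valid [u, v] P) (h : TI u v) :
    FP m u v P (cnt ((P.erase u.1).erase v.1) u.1) (cnt ((P.erase u.1).erase v.1) v.2)
        (cnt ((P.erase u.1).erase v.1) u.2) (cnt ((P.erase u.1).erase v.1) v.1) := by
  obtain ⟨a, b⟩ := u
  obtain ⟨d, c⟩ := v
  obtain ⟨h1, h2, h3⟩ := h
  obtain ⟨ha, hb, hd, hc, -⟩ := hv
  dsimp only at *
  obtain ⟨e1, e2, e3, na, nb, nc, nd, hd', hc'⟩ := pair_facts ha hb hd hc h1 h2 h3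
  have hda : a < d := h1.trans (h2.trans h3)
  have hac : a < c := h1
  have hab : a < b := h1.trans h2
  have hcd : c < d := h2.trans h3
  have hQ : ((P.erase a).erase d).card + 1 = m := by
    have := Finset.card_insert_of_notMem nd
    rw [← e1, Finset.card_erase_of_mem ha, hP] at this
    omega
  have f1 : (insert b (P.erase a)).erase d = insert b ((P.erase a).erase d) := by
    rw [Finset.erase_insert_of_ne h3.ne]
  have f2 : (insert c (P.erase d)).erase a = insert c ((P.erase a).erase d) := by
    rw [Finset.erase_insert_of_ne h1.ne', Finset.erase_right_comm]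
  have f3 : (insert c (P.erase a)).erase d = insert c ((P.erase a).erase d) := by
    rw [Finset.erase_insert_of_ne hcd.ne]
  set Q := (P.erase a).erase d with hQdef
  refine ⟨cnt_mono Q h1.le, cnt_mono Q h2.le, cnt_mono Q h3.le, ?_, ?_, ?_, ?_, ?_, ?_, ?_, ?_⟩
  · exact lt_of_le_of_lt (cnt_le Q d) (by omega)
  · simp only [gridWord, List.append_nil]
    rw [f1, cnt_insert_lt nb h3, cnt_insert_ge h2.le, e1, cnt_insert_ge hda.le, cnt_insert_ge h3.le]
  · simp only [gridWord, List.append_nil]
    rw [f2, cnt_insert_ge hac.le, cnt_insert_lt nc h2, e2, cnt_insert_lt na hda,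
      cnt_insert_lt na hac]
  · simp only [gridWord, List.append_nil]
    rw [f3, cnt_insert_lt nc hcd, cnt_insert_lt nc h2, e1, cnt_insert_ge hda.le,
      cnt_insert_ge hcd.le]
  · simp only [endSet]
    rw [f1, f2, Finset.insert_comm]
  · simp only [endSet]
    rw [f1, f3, Finset.insert_comm]
  · refine ⟨hd', hc', ?_, ?_, trivial⟩
    · exact Finset.mem_insert_of_mem (Finset.mem_erase.2 ⟨hda.ne, ha⟩)
    · dsimp only
      rw [Finset.mem_insert, Finset.mem_erase, not_or, not_and]
      exact ⟨h2.ne', fun _ => hb⟩
  · refine ⟨ha, hc', ?_, ?_, trivial⟩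
    · exact Finset.mem_insert_of_mem (Finset.mem_erase.2 ⟨hda.ne', hd'⟩)
    · dsimp only
      rw [Finset.mem_insert, Finset.mem_erase, not_or, not_and]
      exact ⟨h2.ne', fun _ => hb⟩

lemma card_endSet (L : List (α × α)) (P : Finset α) (hv : Valid L P) :
    (endSet L P).card = P.card := by
  induction L generalizing P with
  | nil => rfl
  | cons e L ih =>
    obtain ⟨h1, h2, h3⟩ := hv
    rw [endSet, ih _ h3, card_move h1 h2]

omit [LinearOrder α] in
lemma plain_cons (x : Pair α) (L : List (Pair α)) (T : List (α × α)) :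
    plain (x :: L) ++ T = [x.2.1, x.2.2] ++ (plain L ++ T) := by
  simp [plain]

/-- the step in the inductions -/
lemma step {x : Pair α} {L : List (Pair α)} {T : List (α × α)} {P : Finset α}
    (hP : P.card = m + 1) (hv : Valid (plain (x :: L) ++ T) P) (hTI : AllTI (x :: L)) :
    Valid [x.2.1, x.2.2] P ∧ (endSet [x.2.1, x.2.2] P).card = m + 1 ∧
      Valid (plain L ++ T) (endSet [x.2.1, x.2.2] P) ∧ AllTI L := by
  rw [plain_cons, valid_append] at hv
  refine ⟨hv.1, ?_, hv.2, fun y hy => hTI y (List.mem_cons_of_mem _ hy)⟩
  rw [card_endSet _ _ hv.1, hP]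

end Tmpl

open Tmpl

theorem dp_tmpl (L : List (Pair α)) (T : List (α × α)) (P : Finset α) (hP : P.card = m + 1)
    (hv : Valid (plain L ++ T) P) (hTI : AllTI L) :
    doublePoints (tmpl m L T P) = (names L).length := by
  induction L generalizing P with
  | nil => simp [tmpl, names, doublePoints_inS]
  | cons x L ih =>
    obtain ⟨s1, s2, s3, s4⟩ := step hP hv hTI
    obtain ⟨o, u, v⟩ := x
    dsimp only at s1 s2 s3
    cases o with
    | none =>
      rw [tmpl, doublePoints_append, doublePoints_inS, ih _ s2 s3 s4]
      simp [names]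
    | some t =>
      have hf := fp u v hP s1 (hTI _ List.mem_cons_self (by simp))
      rw [tmpl, doublePoints_append, dp_free (lt_of_le_of_lt hf.hkl hf.hlm), ih _ s2 s3 s4]
      simp [names, add_comm]

theorem fill_tmpl (L : List (Pair α)) (T : List (α × α)) (P : Finset α) (hP : P.card = m + 1)
    (hv : Valid (plain L ++ T) P) (hTI : AllTI L) (b e : ℕ → Bool)
    (he : ∀ t, ∀ ht : t < (names L).length, e t = b ((names L)[t])) :
    BEq (fillN (tmpl m L T P) e) (toWord m (gridWord (tog L b ++ T) P)) := by
  induction L generalizing P e with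
  | nil =>
    rw [tmpl, fillN_inS]
    exact BEq.refl _
  | cons x L ih =>
    obtain ⟨s1, s2, s3, s4⟩ := step hP hv hTI
    obtain ⟨o, u, v⟩ := x
    dsimp only at s1 s2 s3
    cases o with
    | none =>
      have h1 := ih _ s2 s3 s4 e (by simpa [names] using he)
      rw [tmpl, fillN_append, fillN_inS, doublePoints_inS]
      have h2 : tog ((none, u, v) :: L) b ++ T = [u, v] ++ (tog L b ++ T) := by simp [tog]
      rw [h2, gridWord_append, toWord_append]
      exact BEq.append (BEq.refl _) h1
    | some t =>
      have hf := fp u v hP s1 (hTI _ List.mem_cons_self (by simp))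
      have hkm := lt_of_le_of_lt hf.hkl hf.hlm
      have hnames : names ((some t, u, v) :: L) = t :: names L := by simp [names]
      have he0 : e 0 = b t := by
        have := he 0 (by rw [hnames]; simp)
        simpa [hnames] using this
      have h1 := ih _ s2 s3 s4 (fun t => e (t + 1)) (by
        intro r hr
        have := he (r + 1) (by rw [hnames]; simpa using hr)
        simpa [hnames] using this)
      rw [tmpl, fillN_append, fill_free hkm, dp_free hkm, he0]
      have h2 : tog ((some t, u, v) :: L) b ++ T =
          (if b t then [v, u] else [u, v]) ++ (tog L b ++ T) := by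
        simp [tog]
      rw [h2, gridWord_append, toWord_append (gridWord _ _)]
      cases hb : b t with
      | true =>
        simp only [if_true]
        rw [hf.w2, hf.s2]
        exact BEq.append (key_true hf.hij hf.hjk hf.hkl hf.hlm).symm h1
      | false =>
        simp only [Bool.false_eq_true, if_false]
        rw [hf.w1]
        exact BEq.append (key_false hf.hij hf.hjk hf.hkl hf.hlm).symm h1

theorem smooth_tmpl (L : List (Pair α)) (T : List (α × α)) (P : Finset α) (hP : P.card = m + 1)
    (hv : Valid (plain L ++ T) P) (hTI : AllTI L) (b e : ℕ → Bool)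
    (he : ∀ t, ∀ ht : t < (names L).length, e t = b ((names L)[t])) :
    Flow (smooth (tmpl m L T P) e) P (endSet (plain L ++ T) P) (flowFn (smo L b ++ T)) := by
  induction L generalizing P e with
  | nil =>
    rw [tmpl, smooth_inS]
    exact (flow_gridWord T P hP hv).congr (perm_inS _).symm fun y _ => rfl
  | cons x L ih =>
    obtain ⟨s1, s2, s3, s4⟩ := step hP hv hTI
    obtain ⟨o, u, v⟩ := x
    dsimp only at s1 s2 s3
    rw [plain_cons, endSet_append]
    dsimp only
    have hfl : ∀ (A B : List (α × α)) (y : α), flowFn (A ++ B) y = flowFn B (flowFn A y) := by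
      intro A
      induction A with
      | nil => intro B y; rfl
      | cons a A ihA => intro B y; rw [List.cons_append, flowFn, flowFn, ihA]
    cases o with
    | none =>
      have h1 := ih _ s2 s3 s4 e (by simpa [names] using he)
      rw [tmpl, smooth_append, smooth_inS, doublePoints_inS]
      have h2 : smo ((none, u, v) :: L) b ++ T = [u, v] ++ (smo L b ++ T) := by simp [smo]
      have h3 := ((flow_gridWord [u, v] P hP s1).congr (perm_inS _).symm fun y _ => rfl).comp h1
      refine h3.congr rfl fun y _ => ?_
      rw [h2, ← hfl]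
    | some t =>
      have hf := fp u v hP s1 (hTI _ List.mem_cons_self (by simp))
      have hkm := lt_of_le_of_lt hf.hkl hf.hlm
      have hnames : names ((some t, u, v) :: L) = t :: names L := by simp [names]
      have he0 : e 0 = b t := by
        have := he 0 (by rw [hnames]; simp)
        simpa [hnames] using this
      have h1 := ih _ s2 s3 s4 (fun t => e (t + 1)) (by
        intro r hr
        have := he (r + 1) (by rw [hnames]; simpa using hr)
        simpa [hnames] using this)
      rw [tmpl, smooth_append, dp_free hkm]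
      have h2 : smo ((some t, u, v) :: L) b ++ T =
          (if b t then [(u.1, v.2), (v.1, u.2)] else [u, v]) ++ (smo L b ++ T) := by
        simp [smo]
      have h3 : Flow (smooth (toS m (free (cnt ((P.erase u.1).erase v.1) u.1)
          (cnt ((P.erase u.1).erase v.1) v.2) (cnt ((P.erase u.1).erase v.1) u.2)
          (cnt ((P.erase u.1).erase v.1) v.1))) e) P (endSet [u, v] P)
          (flowFn (if b t then [(u.1, v.2), (v.1, u.2)] else [u, v])) := by
        rw [toS_free hkm, smooth_append, smooth_inS, doublePoints_inS, smooth]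
        cases hb : b t with
        | true =>
          simp only [he0, hb, if_true, smooth_inS]
          have h4 := flow_gridWord _ P hP hf.v3
          rw [hf.s3, hf.w3] at h4
          refine h4.congr ?_ fun y _ => rfl
          rw [perm_toWord, ← posPerm_free hf.hij hf.hjk hf.hkl, ← perm_toWord, toWord_append,
            perm_append, perm_append, perm_inS, perm_inS]
        | false =>
          simp only [he0, hb, Bool.false_eq_true, if_false, smooth_inS]
          have h4 := flow_gridWord _ P hP s1
          refine h4.congr ?_ fun y _ => rfl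
          rw [hf.w1, perm_toWord, posPerm_word hf.hij hf.hjk hf.hkl, perm_append, perm_cons,
            perm_inS, perm_inS, perm_toWord, perm_toWord]
          simp only [List.map_append, List.map_cons, posPerm_append]
          rw [← List.singleton_append, posPerm_append]
          simp [posPerm, hkm]
      refine (h3.comp h1).congr rfl fun y _ => ?_
      rw [h2, ← hfl]

theorem valid_smo (L : List (Pair α)) (T : List (α × α)) (P : Finset α)
    (hv : Valid (plain L ++ T) P) (hTI : AllTI L) (b : ℕ → Bool) :
    Valid (smo L b ++ T) P ∧ endSet (smo L b ++ T) P = endSet (plain L ++ T) P := by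
  induction L generalizing P with
  | nil => exact ⟨hv, rfl⟩
  | cons x L ih =>
    obtain ⟨o, u, v⟩ := x
    rw [plain_cons, valid_append] at hv
    dsimp only at hv
    obtain ⟨s1, s3⟩ := hv
    have s4 : AllTI L := fun y hy => hTI y (List.mem_cons_of_mem _ hy)
    obtain ⟨g1, g2⟩ := ih _ s3 s4
    rw [plain_cons, endSet_append [_, _]]
    dsimp only
    cases o with
    | none =>
      have h2 : smo ((none, u, v) :: L) b ++ T = [u, v] ++ (smo L b ++ T) := by simp [smo]
      rw [h2, valid_append, endSet_append [u, v]]
      exact ⟨⟨s1, g1⟩, g2⟩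
    | some t =>
      have h2 : smo ((some t, u, v) :: L) b ++ T =
          (if b t then [(u.1, v.2), (v.1, u.2)] else [u, v]) ++ (smo L b ++ T) := by
        simp [smo]
      have hcard : P.card = (P.card - 1) + 1 :=
        (Nat.sub_add_cancel (Finset.card_pos.2 ⟨u.1, s1.1⟩)).symm
      have hf := fp u v hcard s1 (hTI _ List.mem_cons_self (by simp))
      rw [h2, valid_append, endSet_append (if b t then _ else _)]
      cases hb : b t with
      | true =>
        simp only [if_true]
        rw [hf.s3]
        exact ⟨⟨hf.v3, g1⟩, g2⟩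
      | false =>
        simp only [Bool.false_eq_true, if_false]
        exact ⟨⟨s1, g1⟩, g2⟩

end RandomGrid
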